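import Pool.Agent.Work.MP_80ff4e_al_helper52.C7a
import Pool.Agent.Work.MP_80ff4e_al_helper39.V

/-!
# MP_80ff4e_al, block C7, part b: the spaces `V_k`
-/

set_option autoImplicit false

namespace PCF
namespace SelfSim

variable {G X : Type} [Group G] {S : SelfSim G X}

/-- The virtual homomorphisms of `N_k` that vanish on `N_{k+1}`. -/
def VV (S : SelfSim G X) (k : ℕ) (φ : S.N k → ℚ) : Prop :=
  IsVHom φ ∧ ∀ h : S.N k, (h : G) ∈ S.N (k + 1) → φ h = 0

/-- Conjugation by `g` on `N_k`. -/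
def conjN (hS : S.SelfRep) (k : ℕ) (g : G) : S.N k →* S.N k where
  toFun h := ⟨g * h * g⁻¹, (N_normal hS k).conj_mem _ h.2 g⟩
  map_one' := by ext; simp
  map_mul' a b := by ext; simp [mul_assoc]

@[simp] theorem conjN_coe (hS : S.SelfRep) (k : ℕ) (g : G) (h : S.N k) :
    (conjN hS k g h : G) = g * h * g⁻¹ := rfl

theorem conjN_mul (hS : S.SelfRep) (k : ℕ) (g g' : G) (h : S.N k) :
    conjN hS k (g * g') h = conjN hS k g (conjN hS k g' h) := by
  ext; simp [mul_assoc]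

theorem mem_cast {m n : ℕ} (h : m = n) {g : G} (hg : g ∈ S.N m) : g ∈ S.N n := h ▸ hg

/-- The map `h ↦ h @ x` from `N_{k+1}` to `N_k`. -/
noncomputable def atHom [Nonempty X] (hF : S.Faithful) (x : X) (k : ℕ) :
    S.N (k + 1) →* S.N k :=
  have ex : ∀ h : S.N (k + 1), ∃ a : S.N k, S.IsAt (a : G) [x] h := fun h => by
    obtain ⟨a, ha⟩ := (N_antitone hF (show 1 ≤ k + 1 by omega) h.2) [x] rfl
    exact ⟨⟨a, ha.mem_N_left hF (n := k) (mem_cast (by simp [add_comm]) h.2)⟩, ha⟩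
  { toFun := fun h => (ex h).choose
    map_one' := by
      apply Subtype.ext
      exact (ex 1).choose_spec.unique hF (IsAt.one S [x])
    map_mul' := fun a b => by
      apply Subtype.ext
      exact (ex (a * b)).choose_spec.unique hF ((ex a).choose_spec.mul (ex b).choose_spec) }

theorem atHom_spec [Nonempty X] (hF : S.Faithful) (x : X) (k : ℕ) (h : S.N (k + 1)) :
    S.IsAt (atHom hF x k h : G) [x] h := by
  have ex : ∀ h : S.N (k + 1), ∃ a : S.N k, S.IsAt (a : G) [x] h := fun h => by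
    obtain ⟨a, ha⟩ := (N_antitone hF (show 1 ≤ k + 1 by omega) h.2) [x] rfl
    exact ⟨⟨a, ha.mem_N_left hF (n := k) (mem_cast (by simp [add_comm]) h.2)⟩, ha⟩
  exact (ex h).choose_spec

theorem eq_atHom [Nonempty X] (hF : S.Faithful) {x : X} {k : ℕ} {h : S.N (k + 1)} {a : G}
    (H : S.IsAt a [x] h) : a = atHom hF x k h := H.unique hF (atHom_spec hF x k h)

theorem atHom_mem_iff [Nonempty X] (hF : S.Faithful) (hS : S.SelfRep) (hT : S.LevTrans) (x : X)
    (k : ℕ) (h : S.N (k + 1)) :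
    (atHom hF x k h : G) ∈ S.N (k + 1) ↔ (h : G) ∈ S.N (k + 2) := by
  have H := atHom_spec hF x k h
  constructor
  · intro h1
    have := H.mem_N_right hS hT h1
    rw [show k + 2 = [x].length + (k + 1) by simp; omega]
    exact this
  · intro h1
    refine H.mem_N_left hF ?_
    rw [show k + 2 = [x].length + (k + 1) by simp; omega] at h1
    exact h1

/-- the normal subgroup `N_{k+1}` of `N_k`. -/
theorem NN_normal (hS : S.SelfRep) (k : ℕ) : ((S.N (k + 1)).subgroupOf (S.N k)).Normal :=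
  (N_normal hS (k + 1)).subgroupOf (S.N k)

theorem VV.mul_right (hV : Stmt_V) (hS : S.SelfRep) {k : ℕ} {φ : S.N k → ℚ} (hφ : S.VV k φ)
    (g n : S.N k) (hn : (n : G) ∈ S.N (k + 1)) : φ (g * n) = φ g :=
  (hV (S.N k)).2.2.2.2.2.2.2.2.1 φ hφ.1 _ (NN_normal hS k)
    (fun n hn => hφ.2 n (Subgroup.mem_subgroupOf.1 hn)) g n (Subgroup.mem_subgroupOf.2 hn)

theorem VV.conj (hV : Stmt_V) (hS : S.SelfRep) {k : ℕ} {φ : S.N k → ℚ} (hφ : S.VV k φ) (g : G) :
    S.VV k (fun h => φ (conjN hS k g h)) := by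
  refine ⟨(hV (S.N k)).2.2.2.2.2.2.2.2.2 _ (conjN hS k g) φ hφ.1, fun h hh => ?_⟩
  exact hφ.2 _ ((N_normal hS (k + 1)).conj_mem _ hh g)

theorem VV.comp [Nonempty X] (hV : Stmt_V) (hF : S.Faithful) (hS : S.SelfRep)
    (hT : S.LevTrans) {k : ℕ} {φ : S.N k → ℚ} (hφ : S.VV k φ) (x : X) :
    S.VV (k + 1) (fun h => φ (atHom hF x k h)) := by
  refine ⟨(hV (S.N k)).2.2.2.2.2.2.2.2.2 _ (atHom hF x k) φ hφ.1, fun h hh => ?_⟩
  exact hφ.2 _ ((atHom_mem_iff hF hS hT x k h).2 hh)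

/-- injectivity of `ι_x^*` -/
theorem VV.inj [Nonempty X] (hV : Stmt_V) (hF : S.Faithful) (hS : S.SelfRep)
    {k : ℕ} {x : X} (hk : (S.bSub x k).relIndex (S.N k) ≠ 0)
    {φ ψ : S.N k → ℚ} (hφ : S.VV k φ) (hψ : S.VV k ψ)
    (h : ∀ h : S.N (k + 1), φ (atHom hF x k h) = ψ (atHom hF x k h)) : φ = ψ := by
  refine (hV (S.N k)).2.2.2.2.2.1 φ ψ hφ.1 hψ.1 ((S.bSub x k).subgroupOf (S.N k)) ⟨hk⟩ ?_
  intro g hg
  rw [Subgroup.mem_subgroupOf, mem_bSub hS] at hg
  obtain ⟨c, h', n, hh', H, hn, hg⟩ := hg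
  have hc : c = atHom hF x k ⟨h', hh'⟩ := eq_atHom hF (h := ⟨h', hh'⟩) H
  have hg' : g = atHom hF x k ⟨h', hh'⟩ * ⟨n, N_succ_le hF k hn⟩ := by
    apply Subtype.ext
    rw [hg, hc]; rfl
  rw [hg', hφ.mul_right hV hS _ _ hn, hψ.mul_right hV hS _ _ hn, h]

/-- surjectivity of `ι_x^*` -/
theorem VV.surj [Nonempty X] (hV : Stmt_V) (hF : S.Faithful) (hS : S.SelfRep) (hT : S.LevTrans)
    {k : ℕ} {x : X} (hk : (S.bSub x k).relIndex (S.N k) ≠ 0)
    {φ : S.N (k + 1) → ℚ} (hφ : S.VV (k + 1) φ) :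
    ∃ ψ : S.N k → ℚ, S.VV k ψ ∧ ∀ h : S.N (k + 1), ψ (atHom hF x k h) = φ h := by
  classical
  have hnorm := NN_normal hS k
  set N' := (S.N (k + 1)).subgroupOf (S.N k) with hN'
  let π : S.N k →* S.N k ⧸ N' := QuotientGroup.mk' N'
  let q : S.N (k + 1) →* S.N k ⧸ N' := π.comp (atHom hF x k)
  have hπ : Function.Surjective π := QuotientGroup.mk'_surjective N'
  obtain ⟨hhom, J, hJn, hJf, hadd⟩ := hφ.1
  -- the kernel of `q`
  have hker : ∀ h : S.N (k + 1), q h = 1 → (h : G) ∈ S.N (k + 2) := by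
    intro h hh
    have : atHom hF x k h ∈ N' := (QuotientGroup.eq_one_iff _).1 hh
    exact (atHom_mem_iff hF hS hT x k h).1 (Subgroup.mem_subgroupOf.1 this)
  -- the image of `J`
  have hJq : (J.map q).FiniteIndex := by
    constructor
    rw [Subgroup.index_map]
    refine mul_ne_zero ?_ ?_
    · exact (@Subgroup.finiteIndex_of_le _ _ _ _ hJf le_sup_left).1
    · rw [← Subgroup.index_comap_of_surjective _ hπ]
      have hle : (S.bSub x k).subgroupOf (S.N k) ≤ q.range.comap π := by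
        intro g hg
        rw [Subgroup.mem_subgroupOf, mem_bSub hS] at hg
        obtain ⟨c, h', n, hh', H, hn, hg⟩ := hg
        have hc : c = atHom hF x k ⟨h', hh'⟩ := eq_atHom hF (h := ⟨h', hh'⟩) H
        have hg' : g = atHom hF x k ⟨h', hh'⟩ * ⟨n, N_succ_le hF k hn⟩ := by
          apply Subtype.ext
          rw [hg, hc]; rfl
        rw [Subgroup.mem_comap]
        refine ⟨⟨h', hh'⟩, ?_⟩
        rw [hg', map_mul]
        have : π ⟨n, N_succ_le hF k hn⟩ = 1 :=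
          (QuotientGroup.eq_one_iff _).2 (Subgroup.mem_subgroupOf.2 hn)
        rw [this, mul_one]
        rfl
      intro h0
      have h2 := Subgroup.index_dvd_of_le hle
      rw [h0] at h2
      exact hk (Nat.eq_zero_of_zero_dvd h2)
  -- the function on the quotient
  let φ₂ : S.N k ⧸ N' → ℚ := fun y => if h : ∃ a ∈ J, q a = y then φ h.choose else 0
  have hφ₂ : ∀ a ∈ J, φ₂ (q a) = φ a := by
    intro a ha
    have hex : ∃ b ∈ J, q b = q a := ⟨a, ha, rfl⟩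
    have h1 : φ₂ (q a) = φ hex.choose := dif_pos hex
    obtain ⟨hb, hb'⟩ := hex.choose_spec
    rw [h1]
    set b := hex.choose
    have h2 : q (a⁻¹ * b) = 1 := by rw [map_mul, map_inv, hb', inv_mul_cancel]
    have h3 := hadd a ha (a⁻¹ * b) (J.mul_mem (J.inv_mem ha) hb)
    rw [mul_inv_cancel_left, hφ.2 _ (hker _ h2), add_zero] at h3
    exact h3
  obtain ⟨ψ₂, hψ₂, hψe⟩ := (hV (S.N k ⧸ N')).2.2.2.2.2.2.1 (J.map q) hJq φ₂ (by
    rintro _ ⟨a, ha, rfl⟩ _ ⟨b, hb, rfl⟩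
    rw [← map_mul, hφ₂ _ (J.mul_mem ha hb), hφ₂ a ha, hφ₂ b hb, hadd a ha b hb])
  refine ⟨fun g => ψ₂ (π g), ⟨(hV _).2.2.2.2.2.2.2.2.2 _ π ψ₂ hψ₂, fun h hh => ?_⟩, ?_⟩
  · have : π h = 1 := (QuotientGroup.eq_one_iff _).2 (Subgroup.mem_subgroupOf.2 hh)
    dsimp only
    rw [this]
    exact hψ₂.map_one
  · have h5 : (fun h : S.N (k + 1) => ψ₂ (q h)) = φ := by
      refine (hV (S.N (k + 1))).2.2.2.2.2.1 _ φ ((hV _).2.2.2.2.2.2.2.2.2 _ q ψ₂ hψ₂) hφ.1 J
        hJf ?_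
      intro g hg
      rw [hψe _ ⟨g, hg, rfl⟩, hφ₂ g hg]
    exact fun h => congrFun h5 h

/-- The kernel of the action of `G` on `V_k`. -/
def MM (hS : S.SelfRep) (k : ℕ) : Subgroup G where
  carrier := {g | ∀ φ, S.VV k φ → ∀ h, φ (conjN hS k g h) = φ h}
  one_mem' := by
    intro φ _ h
    congr 1
    ext; simp
  mul_mem' := by
    intro a b ha hb φ hφ h
    rw [conjN_mul, ha φ hφ, hb φ hφ]
  inv_mem' := by
    intro a ha φ hφ h
    rw [← ha φ hφ (conjN hS k a⁻¹ h), ← conjN_mul]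
    congr 1
    ext; simp

theorem mem_MM {hS : S.SelfRep} {k : ℕ} {g : G} :
    g ∈ MM hS k ↔ ∀ φ, S.VV k φ → ∀ h, φ (conjN hS k g h) = φ h := Iff.rfl

theorem MM_normal (hV : Stmt_V) (hS : S.SelfRep) (k : ℕ) : (MM hS k).Normal := by
  constructor
  intro a ha g φ hφ h
  have h1 := ha _ (hφ.conj hV hS g) (conjN hS k g⁻¹ h)
  rw [← conjN_mul, ← conjN_mul, ← conjN_mul] at h1
  rw [show g * a * g⁻¹ = g * (a * g⁻¹) by group]
  refine (congrArg φ ?_).trans (h1.trans (congrArg φ ?_)) <;> ext <;> simp [mul_assoc]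

/-- the section formula -/
theorem conjN_atHom [Nonempty X] (hF : S.Faithful) (hS : S.SelfRep) {x y : X} {k : ℕ} {g : G}
    (hg : S.act g x = y) (h : S.N (k + 1)) :
    conjN hS k g (atHom hF x k h) = atHom hF y k (conjN hS (k + 1) (S.sec g x) h) := by
  apply Subtype.ext
  refine eq_atHom hF ?_
  have := (atHom_spec hF x k h).conj g
  simpa [hg] using this

theorem mem_MM_of_sec [Nonempty X] (hV : Stmt_V) (hF : S.Faithful) (hS : S.SelfRep)
    (hT : S.LevTrans) {k : ℕ} {x : X} (hk : (S.bSub x k).relIndex (S.N k) ≠ 0) {g : G}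
    (hg : S.act g x = x) (h : S.sec g x ∈ MM hS (k + 1)) : g ∈ MM hS k := by
  intro φ hφ
  have h1 : (fun h => φ (conjN hS k g h)) = φ := by
    refine VV.inj hV hF hS hk (hφ.conj hV hS g) hφ fun h' => ?_
    rw [conjN_atHom hF hS hg]
    exact h _ (hφ.comp hV hF hS hT x) h'
  exact fun h' => congrFun h1 h'

theorem sec_mem_MM [Nonempty X] (hV : Stmt_V) (hF : S.Faithful) (hS : S.SelfRep)
    (hT : S.LevTrans) {k : ℕ} {x : X} (hk : (S.bSub x k).relIndex (S.N k) ≠ 0) {g : G}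
    (hg : S.act g x = x) (h : g ∈ MM hS k) : S.sec g x ∈ MM hS (k + 1) := by
  intro φ hφ h'
  obtain ⟨ψ, hψ, hψφ⟩ := VV.surj hV hF hS hT hk hφ
  rw [← hψφ, ← hψφ, ← conjN_atHom hF hS hg]
  exact h ψ hψ _

theorem K_le_MM [Nonempty X] (hV : Stmt_V) (hF : S.Faithful) (hS : S.SelfRep)
    (hT : S.LevTrans) {m₁ : ℕ} (hm : ∀ k ≥ m₁, ∀ x : X, (S.bSub x k).relIndex (S.N k) ≠ 0)
    (w : List X) : ∀ k ≥ m₁, S.K w ≤ MM hS k := by
  induction w with
  | nil =>
    intro k _ g hg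
    rw [mem_K] at hg
    have : g = 1 := hg.2
    rw [this]
    exact Subgroup.one_mem _
  | cons x w ih =>
    intro k hk g hg
    rw [mem_K, wact_cons, wsec_cons, List.cons.injEq] at hg
    exact mem_MM_of_sec hV hF hS hT (hm k hk x) hg.1.1
      (ih (k + 1) (by omega) (S.mem_K.2 ⟨hg.1.2, hg.2⟩))

theorem secSub_le_MM [Nonempty X] (hV : Stmt_V) (hF : S.Faithful) (hS : S.SelfRep)
    (hT : S.LevTrans) {m₁ : ℕ} (hm : ∀ k ≥ m₁, ∀ x : X, (S.bSub x k).relIndex (S.N k) ≠ 0)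
    (w : List X) : ∀ k ≥ m₁, S.secSub (MM hS k) w ≤ MM hS (k + w.length) := by
  induction w with
  | nil => intro k _; simp
  | cons x w ih =>
    intro k hk
    have h1 : S.secSub (MM hS k) [x] ≤ MM hS (k + 1) := by
      intro h hh
      rw [mem_secSub] at hh
      obtain ⟨g, hg, h1, rfl⟩ := hh
      simp only [wact_cons, wact_nil, List.cons.injEq, and_true] at h1
      exact sec_mem_MM hV hF hS hT (hm k hk x) h1 hg
    rw [show x :: w = [x] ++ w from rfl, secSub_append]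
    refine (S.secSub_mono h1 w).trans ((ih (k + 1) (by omega)).trans ?_)
    rw [show k + ([x] ++ w).length = k + 1 + w.length by simp; omega]

end SelfSim
end PCF
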