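import Pool.Agent.Work.MP_80ff4e_al_91.Common
import Pool.Agent.Work.MP_80ff4e_al_helper52.C7b
import Pool.Agent.Work.MP_80ff4e_al_helper82.D2

/-!
# MP_80ff4e_al, block C7
-/

set_option autoImplicit false

namespace PCF

variable {G X : Type} [Group G] [Fintype X] {S : SelfSim G X}

open SelfSim in
theorem stmt_C7 (hC3 : Stmt_C3) (hC5 : Stmt_C5) : Stmt_C7 := by
  intro G X _ _ S C
  have hV := stmt_V
  have hX := C.two_le
  have hF := C.faithful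
  have hS := C.selfrep
  have hT := C.levTrans
  have hne := C.nonempty
  obtain ⟨m₁, hm₁⟩ := exists_bSub_relIndex stmt_D2 C.fg hF hS hT
    ((hC3 G X S C).1 (S.N 1) (N_normal hS 1) (hC5 G X S C 1)).1
  -- the kernel of the action on `V_k` is everything for large `k`
  obtain ⟨m₂, hm₂⟩ : ∃ m₂, ∀ m ≥ m₂, MM hS m = ⊤ := by
    obtain ⟨n₀, hn₀⟩ := C.rfin
    have h1 : (MM hS m₁).FiniteIndex := by
      refine @Subgroup.finiteIndex_of_le _ _ _ _ hn₀ (iSup_le fun w => ?_)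
      exact K_le_MM hV hF hS hT hm₁ w.1 m₁ le_rfl
    obtain ⟨n₁, hn₁⟩ := C.q1 (MM hS m₁) (MM_normal hV hS m₁) h1
    refine ⟨m₁ + n₁, fun m hm => ?_⟩
    obtain ⟨w, hw⟩ := exists_word (X := X) (m - m₁)
    have h2 := hn₁ w (by omega)
    have h3 := secSub_le_MM hV hF hS hT hm₁ w m₁ le_rfl
    rw [h2, hw, show m₁ + (m - m₁) = m by omega] at h3
    exact top_le_iff.1 h3
  have inv : ∀ m ≥ m₂, ∀ φ : G → ℚ, VOn (S.N m) φ → (∀ h ∈ S.N (m + 1), φ h = 0) →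
      ∀ (g : G), ∀ h ∈ S.N m, φ (g * h * g⁻¹) = φ h := by
    intro m hm φ hφ hφ0 g h hh
    have h1 : g ∈ MM hS m := by rw [hm₂ m hm]; trivial
    exact h1 (fun h : S.N m => φ h) ⟨hφ, fun h hh => hφ0 h hh⟩ ⟨h, hh⟩
  refine ⟨max m₁ m₂, fun m hm => ?_⟩
  have hm1 : m ≥ m₁ := (le_max_left _ _).trans hm
  have hm2 : m ≥ m₂ := (le_max_right _ _).trans hm
  refine ⟨inv m hm2, exists_abelian hX hF hS (hm₁ m hm1), ?_⟩
  intro φ hφ hφ0
  have x₀ : X := Classical.choice hne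
  obtain ⟨ψ, hψ, hψφ⟩ := VV.surj (x := x₀) hV hF hS hT (hm₁ m hm1 x₀)
    (φ := fun h : S.N (m + 1) => φ h) ⟨hφ, fun h hh => hφ0 h hh⟩
  classical
  let ψ' : G → ℚ := fun g => if hg : g ∈ S.N m then ψ ⟨g, hg⟩ else 0
  have hψ' : ∀ h : S.N m, ψ' h = ψ h := fun h => dif_pos h.2
  have hψ'V : VOn (S.N m) ψ' := by
    have : (fun h : S.N m => ψ' h) = ψ := funext hψ'
    unfold VOn
    rw [this]
    exact hψ.1
  have hψ'0 : ∀ h ∈ S.N (m + 1), ψ' h = 0 := by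
    intro h hh
    have := hψ' ⟨h, N_succ_le hF m hh⟩
    rw [this]
    exact hψ.2 _ hh
  refine ⟨ψ', hψ'V, hψ'0, ?_⟩
  intro x h k hh H
  obtain ⟨g, hg⟩ := hT [x] [x₀] rfl
  have H1 := H.conj g
  rw [hg] at H1
  have hh1 : S.wsec g [x] * h * (S.wsec g [x])⁻¹ ∈ S.N (m + 1) :=
    (N_normal hS (m + 1)).conj_mem h hh _
  have e := eq_atHom hF (k := m) (h := ⟨_, hh1⟩) H1
  have h2 : k ∈ S.N m := H.mem_N_left hF (n := m) (mem_cast (by simp [add_comm]) hh)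
  rw [← inv m hm2 ψ' hψ'V hψ'0 g k h2, e, hψ' (atHom hF x₀ m ⟨_, hh1⟩), hψφ]
  exact inv (m + 1) (by omega) φ hφ hφ0 _ h hh

end PCF
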