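import Pool.Agent.Work.MP_80ff4e_al.SelfSim

/-!
# MP_80ff4e_al, block C0: basic facts on self-similar actions (lemmas)
-/

set_option autoImplicit false

namespace PCF
namespace SelfSim

variable {G X : Type} [Group G] (S : SelfSim G X)

/-! ### Words -/

theorem exists_take_drop {n : ℕ} {w : List X} (h : n ≤ w.length) :
    ∃ u v : List X, w = u ++ v ∧ u.length = n ∧ v.length = w.length - n :=
  ⟨w.take n, w.drop n, (List.take_append_drop n w).symm, by simp [h], by simp⟩

theorem exists_word [Nonempty X] (n : ℕ) : ∃ w : List X, w.length = n :=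
  ⟨List.replicate n (Classical.arbitrary X), by simp⟩

theorem wact_append_left {g : G} {u v : List X} (h : S.wact g (u ++ v) = u ++ v) :
    S.wact g u = u := by
  rw [S.wact_append] at h
  exact (List.append_inj h (by simp)).1

theorem wact_append_right {g : G} {u v : List X} (h : S.wact g (u ++ v) = u ++ v) :
    S.wact (S.wsec g u) v = v := by
  rw [S.wact_append] at h
  exact (List.append_inj h (by simp)).2

/-! ### Levels -/

/-- The homomorphism to the permutations of a level. -/
def levHom (n : ℕ) : G →* Equiv.Perm {w : List X // w.length = n} where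
  toFun g :=
    { toFun := fun w => ⟨S.wact g w.1, by simp [w.2]⟩
      invFun := fun w => ⟨S.wact g⁻¹ w.1, by simp [w.2]⟩
      left_inv := fun w => by simp
      right_inv := fun w => by simp }
  map_one' := by ext w; simp
  map_mul' := fun g h => by ext w; simp [S.wact_mul]

theorem ker_levHom (n : ℕ) : (S.levHom n).ker = S.LSt n := by
  ext g
  rw [MonoidHom.mem_ker, mem_LSt]
  constructor
  · intro h w hw
    have := congrArg (fun e : Equiv.Perm {w : List X // w.length = n} => (e ⟨w, hw⟩).1) h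
    simpa [levHom] using this
  · intro h
    ext w : 1
    exact Subtype.ext (h w.1 w.2)

instance finite_words [Finite X] (n : ℕ) : Finite {w : List X // w.length = n} :=
  inferInstanceAs (Finite (List.Vector X n))

theorem LSt_finiteIndex [Finite X] (n : ℕ) : (S.LSt n).FiniteIndex := by
  rw [← S.ker_levHom n]
  infer_instance

theorem St_finiteIndex [Finite X] (w : List X) : (S.St w).FiniteIndex := by
  have := S.LSt_finiteIndex (X := X) w.length
  exact Subgroup.finiteIndex_of_le (S.LSt_le_St rfl)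

theorem LSt_antitone [Nonempty X] {m n : ℕ} (h : m ≤ n) : S.LSt n ≤ S.LSt m := by
  intro g hg w hw
  obtain ⟨u, hu⟩ := exists_word (X := X) (n - m)
  exact S.wact_append_left (hg (w ++ u) (by simp [hw, hu, h]))

/-! ### Self-replication -/

variable {S} in
theorem SelfRep.word (hS : S.SelfRep) (w : List X) (g : G) :
    ∃ h, S.wact h w = w ∧ S.wsec h w = g := by
  induction w generalizing g with
  | nil => exact ⟨g, rfl, rfl⟩
  | cons x w ih =>
    obtain ⟨h', h1, h2⟩ := ih g
    obtain ⟨h, h3, h4⟩ := hS x h'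
    exact ⟨h, by simp [h3, h4, h1], by simp [h4, h2]⟩

variable {S} in
theorem SelfRep.secHom_surjective (hS : S.SelfRep) (w : List X) :
    Function.Surjective (S.secHom w) := by
  intro g
  obtain ⟨h, h1, h2⟩ := hS.word w g
  exact ⟨⟨h, h1⟩, h2⟩

/-! ### Faithfulness -/

variable {S} in
theorem Faithful.eq_one [Nonempty X] (hF : S.Faithful) {g : G} {n : ℕ} (hg : g ∈ S.LSt n)
    (h : ∀ w : List X, w.length = n → S.wsec g w = 1) : g = 1 := by
  refine hF g fun v => ?_
  rcases le_total n v.length with hv | hv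
  · obtain ⟨u, u', rfl, hu, -⟩ := exists_take_drop hv
    rw [S.wact_append, hg u hu, h u hu, S.wact_one]
  · exact S.LSt_antitone hv hg v rfl

variable {S} in
theorem Faithful.eq_of_wsec [Nonempty X] (hF : S.Faithful) {g h : G} {n : ℕ} (hg : g ∈ S.LSt n)
    (hh : h ∈ S.LSt n) (e : ∀ w : List X, w.length = n → S.wsec g w = S.wsec h w) : g = h := by
  have h1 : g * h⁻¹ = 1 := by
    refine hF.eq_one ((S.LSt n).mul_mem hg ((S.LSt n).inv_mem hh)) fun w hw => ?_
    have hh' := (S.LSt n).inv_mem hh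
    rw [S.wsec_mul_of_LSt hh' hw, S.wsec_inv, hh' w hw, e w hw, mul_inv_cancel]
  exact mul_inv_eq_one.1 h1

/-! ### `K` -/

theorem K_le_K_append (w u : List X) : S.K w ≤ S.K (w ++ u) := by
  intro g hg
  rw [mem_K] at hg ⊢
  rw [S.wact_append, S.wsec_append, hg.1, hg.2]
  simp

theorem conj_mem_K {w : List X} {k : G} (hk : k ∈ S.K w) (g : G) :
    g * k * g⁻¹ ∈ S.K (S.wact g w) := by
  rw [mem_K] at hk ⊢
  refine ⟨?_, ?_⟩
  · rw [S.wact_mul, S.wact_mul, S.wact_inv_wact, hk.1]
  · rw [S.wsec_conj, hk.1, hk.2]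
    simp

theorem map_conj_K (w : List X) (g : G) :
    (S.K w).map (MulAut.conj g).toMonoidHom = S.K (S.wact g w) := by
  apply le_antisymm
  · rintro _ ⟨k, hk, rfl⟩
    exact S.conj_mem_K hk g
  · intro k hk
    refine ⟨g⁻¹ * k * g, ?_, ?_⟩
    · have := S.conj_mem_K hk g⁻¹
      simpa using this
    · simp [MulAut.conj_apply, mul_assoc]

/-! ### Sections of subgroups -/

theorem conj_mem_secSub {M : Subgroup G} (hM : M.Normal) {u : List X} {h : G}
    (hh : h ∈ S.secSub M u) (g : G) :
    S.wsec g u * h * (S.wsec g u)⁻¹ ∈ S.secSub M (S.wact g u) := by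
  rw [mem_secSub] at hh ⊢
  obtain ⟨m, hm, h1, h2⟩ := hh
  refine ⟨g * m * g⁻¹, hM.conj_mem m hm g, ?_, ?_⟩
  · rw [S.wact_mul, S.wact_mul, S.wact_inv_wact, h1]
  · rw [S.wsec_conj, h1, h2]

variable {S} in
theorem SelfRep.secSub_normal (hS : S.SelfRep) {M : Subgroup G} (hM : M.Normal) (w : List X) :
    (S.secSub M w).Normal := by
  constructor
  intro h hh g
  obtain ⟨g', h1, h2⟩ := hS.word w g
  have := S.conj_mem_secSub hM hh g'
  rwa [h1, h2] at this

variable {S} in
theorem SelfRep.secSub_le (hS : S.SelfRep) (hT : S.LevTrans) {M : Subgroup G} (hM : M.Normal)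
    {u v : List X} (huv : u.length = v.length) : S.secSub M u ≤ S.secSub M v := by
  intro h hh
  obtain ⟨g, rfl⟩ := hT u v huv
  have h1 := S.conj_mem_secSub hM hh g
  have h2 := (hS.secSub_normal hM (S.wact g u)).conj_mem _ h1 (S.wsec g u)⁻¹
  simpa [mul_assoc] using h2

variable {S} in
theorem SelfRep.secSub_eq (hS : S.SelfRep) (hT : S.LevTrans) {M : Subgroup G} (hM : M.Normal)
    {u v : List X} (huv : u.length = v.length) : S.secSub M u = S.secSub M v :=
  le_antisymm (hS.secSub_le hT hM huv) (hS.secSub_le hT hM huv.symm)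

theorem secSub_append (M : Subgroup G) (w u : List X) :
    S.secSub M (w ++ u) = S.secSub (S.secSub M w) u := by
  ext h
  simp only [mem_secSub]
  constructor
  · rintro ⟨g, hg, h1, h2⟩
    refine ⟨S.wsec g w, ⟨g, hg, S.wact_append_left h1, rfl⟩, S.wact_append_right h1, ?_⟩
    rw [← h2, S.wsec_append]
  · rintro ⟨_, ⟨g, hg, h1, rfl⟩, h2, h3⟩
    refine ⟨g, hg, ?_, ?_⟩
    · rw [S.wact_append, h1, h2]
    · rw [S.wsec_append, h3]

variable {S} in
theorem SelfRep.secSub_finiteIndex [Finite X] (hS : S.SelfRep) {M : Subgroup G}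
    (hM : M.FiniteIndex) (w : List X) : (S.secSub M w).FiniteIndex := by
  constructor
  have h1 : (M.comap (S.St w).subtype).FiniteIndex := Subgroup.instFiniteIndex_subgroupOf M (S.St w)
  have h2 := Subgroup.index_map_dvd (H := M.comap (S.St w).subtype) (hS.secHom_surjective w)
  intro h0
  unfold secSub at h0
  rw [h0] at h2
  exact h1.1 (Nat.eq_zero_of_zero_dvd h2)

@[simp] theorem secSub_nil (M : Subgroup G) : S.secSub M [] = M := by
  ext h
  rw [mem_secSub]
  simp

theorem secSub_mono {M M' : Subgroup G} (h : M ≤ M') (w : List X) :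
    S.secSub M w ≤ S.secSub M' w := by
  intro g hg
  rw [mem_secSub] at hg ⊢
  obtain ⟨m, hm, h1, h2⟩ := hg
  exact ⟨m, h hm, h1, h2⟩

/-! ### `h @ v` -/

variable {S}

theorem IsAt.unique [Nonempty X] (hF : S.Faithful) {k k' h : G} {v : List X} (H : S.IsAt k v h)
    (H' : S.IsAt k' v h) : k = k' := by
  refine hF.eq_of_wsec H.1 H'.1 fun w hw => ?_
  by_cases hv : w = v
  · subst hv; rw [H.2.1, H'.2.1]
  · rw [H.2.2 w hw hv, H'.2.2 w hw hv]

theorem IsAt.commute [Nonempty X] (hF : S.Faithful) {k k' h h' : G} {v v' : List X}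
    (hvv : v.length = v'.length) (hne : v ≠ v') (H : S.IsAt k v h) (H' : S.IsAt k' v' h') :
    k * k' = k' * k := by
  have hk' : k' ∈ S.LSt v.length := by rw [hvv]; exact H'.1
  refine hF.eq_of_wsec ((S.LSt _).mul_mem H.1 hk') ((S.LSt _).mul_mem hk' H.1) fun w hw => ?_
  rw [S.wsec_mul_of_LSt hk' hw, S.wsec_mul_of_LSt H.1 hw]
  by_cases hv : w = v
  · subst hv
    rw [H'.2.2 w hvv hne]; simp
  · rw [H.2.2 w hw hv]; simp

theorem IsAt.conj {k h : G} {v : List X} (H : S.IsAt k v h) (g : G) :
    S.IsAt (g * k * g⁻¹) (S.wact g v) (S.wsec g v * h * (S.wsec g v)⁻¹) := by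
  refine ⟨?_, ?_, fun u hu huv => ?_⟩
  · rw [S.length_wact]
    exact (S.LSt_normal _).conj_mem _ H.1 g
  · rw [S.wsec_conj, H.1 v rfl, H.2.1]
  · obtain ⟨u', rfl⟩ : ∃ u', S.wact g u' = u := ⟨S.wact g⁻¹ u, by simp⟩
    have hu' : u'.length = v.length := by simpa using hu
    have hne : u' ≠ v := fun h => huv (by rw [h])
    rw [S.wsec_conj, H.1 u' hu', H.2.2 u' hu' hne]
    simp

theorem IsAt.comp {k h h' : G} {v u : List X} (H : S.IsAt k v h') (H' : S.IsAt h' u h) :
    S.IsAt k (v ++ u) h := by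
  refine ⟨fun w hw => ?_, ?_, fun w hw hne => ?_⟩
  · obtain ⟨w1, w2, rfl, h1, -⟩ := exists_take_drop (n := v.length) (w := w) (by simp [hw])
    have h2 : w2.length = u.length := by
      simp only [List.length_append] at hw; omega
    rw [S.wact_append, H.1 w1 h1]
    by_cases hv : w1 = v
    · subst hv; rw [H.2.1, H'.1 w2 h2]
    · rw [H.2.2 w1 h1 hv, S.wact_one]
  · rw [S.wsec_append, H.2.1, H'.2.1]
  · obtain ⟨w1, w2, rfl, h1, -⟩ := exists_take_drop (n := v.length) (w := w) (by simp [hw])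
    have h2 : w2.length = u.length := by
      simp only [List.length_append] at hw; omega
    rw [S.wsec_append]
    by_cases hv : w1 = v
    · subst hv
      rw [H.2.1]
      exact H'.2.2 w2 h2 fun h => hne (by rw [h])
    · rw [H.2.2 w1 h1 hv, S.wsec_one]

theorem IsAt.split [Nonempty X] (hF : S.Faithful) {k h : G} {v u : List X}
    (H : S.IsAt k (v ++ u) h) : ∃ h', S.IsAt k v h' ∧ S.IsAt h' u h := by
  have hfix : ∀ w1 w2 : List X, w1.length = v.length → w2.length = u.length →
      S.wact k (w1 ++ w2) = w1 ++ w2 := fun w1 w2 h1 h2 => H.1 _ (by simp [h1, h2])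
  refine ⟨S.wsec k v, ⟨?_, rfl, ?_⟩, ?_, ?_, ?_⟩
  · intro w hw
    exact S.wact_append_left (hfix w u hw rfl)
  · intro w hw hne
    refine hF.eq_one (n := u.length) (fun w2 h2 => S.wact_append_right (hfix w w2 hw h2)) ?_
    intro w2 h2
    rw [← S.wsec_append]
    refine H.2.2 _ (by simp [hw, h2]) fun h => hne (List.append_inj h hw).1
  · intro w2 h2
    exact S.wact_append_right (hfix v w2 rfl h2)
  · rw [← S.wsec_append, H.2.1]
  · intro w2 h2 hne
    rw [← S.wsec_append]
    exact H.2.2 _ (by simp [h2]) fun h => hne (List.append_inj h rfl).2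

/-- transport of `h @ v` to all words of the same length. -/
theorem IsAt.transport (hS : S.SelfRep) (hT : S.LevTrans) {k h : G} {v v' : List X}
    (hvv : v.length = v'.length) (H : S.IsAt k v h) : ∃ k', S.IsAt k' v' h := by
  obtain ⟨g, rfl⟩ := hT v v' hvv
  obtain ⟨g', h1, h2⟩ := hS.word (S.wact g v) (S.wsec g v)⁻¹
  have H1 := (H.conj g).conj g'
  rw [h1, h2] at H1
  have e : (S.wsec g v)⁻¹ * (S.wsec g v * h * (S.wsec g v)⁻¹) * ((S.wsec g v)⁻¹)⁻¹ = h := by
    group
  rw [e] at H1
  exact ⟨_, H1⟩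

theorem mem_N_of_isAt (hS : S.SelfRep) (hT : S.LevTrans) {k h : G} {v : List X}
    (H : S.IsAt k v h) : h ∈ S.N v.length :=
  fun _ hv' => H.transport hS hT hv'.symm

theorem mem_N_iff [Nonempty X] (hS : S.SelfRep) (hT : S.LevTrans) {n : ℕ} {h : G} :
    h ∈ S.N n ↔ ∃ (v : List X) (k : G), v.length = n ∧ S.IsAt k v h := by
  constructor
  · intro H
    obtain ⟨v, hv⟩ := exists_word (X := X) n
    obtain ⟨k, hk⟩ := H v hv
    exact ⟨v, k, hv, hk⟩
  · rintro ⟨v, k, rfl, hk⟩
    exact mem_N_of_isAt hS hT hk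

theorem N_normal (hS : S.SelfRep) (n : ℕ) : (S.N n).Normal := by
  constructor
  intro h hh g v hv
  obtain ⟨g', h1, h2⟩ := hS.word v g
  obtain ⟨k, hk⟩ := hh v hv
  have := hk.conj g'
  rw [h1, h2] at this
  exact ⟨_, this⟩

theorem mem_N_add [Nonempty X] (hF : S.Faithful) (m n : ℕ) (h : G) :
    h ∈ S.N (m + n) ↔ h ∈ S.N m ∧
      ∀ (v : List X) (k : G), v.length = m → S.IsAt k v h → k ∈ S.N n := by
  constructor
  · intro H
    have key : ∀ u v : List X, u.length = n → v.length = m →
        ∃ h' k', S.IsAt h' v h ∧ S.IsAt k' u h' := by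
      intro u v hu hv
      obtain ⟨k', hk'⟩ := H (u ++ v) (by simp [hu, hv, add_comm])
      obtain ⟨h', h1, h2⟩ := hk'.split hF
      exact ⟨h', k', h2, h1⟩
    refine ⟨fun v hv => ?_, fun v k hv hk u hu => ?_⟩
    · obtain ⟨u, hu⟩ := exists_word (X := X) n
      obtain ⟨h', k', h1, -⟩ := key u v hu hv
      exact ⟨h', h1⟩
    · obtain ⟨h', k', h1, h2⟩ := key u v hu hv
      rw [hk.unique hF h1]
      exact ⟨k', h2⟩
  · rintro ⟨h1, h2⟩ w hw
    obtain ⟨u, v, rfl, hu, hv⟩ := exists_take_drop (n := n) (w := w) (by omega)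
    have hv' : v.length = m := by
      simp only [List.length_append] at hw; omega
    obtain ⟨k, hk⟩ := h1 v hv'
    obtain ⟨k', hk'⟩ := h2 v k hv' hk u hu
    exact ⟨k', hk'.comp hk⟩

theorem N_succ_le [Nonempty X] (hF : S.Faithful) (n : ℕ) : S.N (n + 1) ≤ S.N n :=
  fun h hh => ((mem_N_add hF n 1 h).1 hh).1

theorem N_antitone [Nonempty X] (hF : S.Faithful) : Antitone S.N :=
  antitone_nat_of_succ_le (N_succ_le hF)

/-! ### Rigid stabilisers -/

theorem mem_Rist_iff [Nonempty X] (hF : S.Faithful) {k : G} {v : List X} :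
    k ∈ S.Rist v ↔ ∃ h, S.IsAt k v h := by
  constructor
  · intro hk
    have hfix : ∀ u : List X, u.length = v.length → u ≠ v → S.wact k u = u := by
      intro u hu hne
      refine hk u fun hp => hne ?_
      exact (hp.eq_of_length hu.symm).symm
    refine ⟨S.wsec k v, ?_, rfl, ?_⟩
    · intro u hu
      by_cases huv : u = v
      · subst huv
        by_contra hne
        have h1 := hfix (S.wact k u) (by simp) hne
        exact hne (S.wact_injective k h1)
      · exact hfix u hu huv
    · intro u hu hne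
      refine hF _ fun w => ?_
      refine S.wact_append_right (u := u) (hk _ fun hp => hne ?_)
      obtain ⟨t, ht⟩ := hp
      exact ((List.append_inj ht hu.symm).1).symm
  · rintro ⟨h, H⟩ u hu
    rcases le_total v.length u.length with hl | hl
    · obtain ⟨u1, u2, rfl, h1, -⟩ := exists_take_drop hl
      have hne : u1 ≠ v := fun h => hu (by rw [h]; exact List.prefix_append _ _)
      rw [S.wact_append, H.1 u1 h1, H.2.2 u1 h1 hne, S.wact_one]
    · exact S.LSt_antitone hl H.1 u rfl

/-- The elements of the level stabiliser all of whose sections are in `M`. -/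
def secIn (S : SelfSim G X) (n : ℕ) (M : Subgroup G) : Subgroup G where
  carrier := {g | g ∈ S.LSt n ∧ ∀ w : List X, w.length = n → S.wsec g w ∈ M}
  one_mem' := ⟨(S.LSt n).one_mem, fun w _ => by simp [M.one_mem]⟩
  mul_mem' := by
    rintro a b ⟨ha, ha'⟩ ⟨hb, hb'⟩
    refine ⟨(S.LSt n).mul_mem ha hb, fun w hw => ?_⟩
    rw [S.wsec_mul_of_LSt hb hw]
    exact M.mul_mem (ha' w hw) (hb' w hw)
  inv_mem' := by
    rintro a ⟨ha, ha'⟩
    have hi := (S.LSt n).inv_mem ha
    refine ⟨hi, fun w hw => ?_⟩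
    rw [S.wsec_inv, hi w hw]
    exact M.inv_mem (ha' w hw)

theorem mem_secIn {n : ℕ} {M : Subgroup G} {g : G} :
    g ∈ S.secIn n M ↔ g ∈ S.LSt n ∧ ∀ w : List X, w.length = n → S.wsec g w ∈ M := Iff.rfl

theorem secIn_finiteIndex [Finite X] (n : ℕ) {M : Subgroup G} (hM : M.FiniteIndex) :
    (S.secIn n M).FiniteIndex := by
  classical
  have h1 : ∀ w : {w : List X // w.length = n},
      ((M.comap (S.secHom w.1)).map (S.St w.1).subtype).FiniteIndex := by
    intro w
    constructor
    rw [Subgroup.index_map_subtype]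
    refine mul_ne_zero ?_ (S.St_finiteIndex w.1).1
    rw [Subgroup.index_comap]
    have := hM
    exact (Subgroup.instFiniteIndex_subgroupOf M (S.secHom w.1).range).1
  have h2 : (⨅ w : {w : List X // w.length = n},
      (M.comap (S.secHom w.1)).map (S.St w.1).subtype).FiniteIndex :=
    Subgroup.finiteIndex_iInf fun w => h1 w
  refine @Subgroup.finiteIndex_of_le _ _ _ _ h2 ?_
  intro g hg
  rw [Subgroup.mem_iInf] at hg
  have h3 : ∀ w : List X, w.length = n → S.wact g w = w ∧ S.wsec g w ∈ M := by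
    intro w hw
    obtain ⟨a, ha, rfl⟩ := hg ⟨w, hw⟩
    exact ⟨a.2, ha⟩
  exact ⟨fun w hw => (h3 w hw).1, fun w hw => (h3 w hw).2⟩

theorem mem_iSup_Rist [Fintype X] [Nonempty X] (hF : S.Faithful) {n : ℕ} (T : Finset (List X)) :
    ∀ g ∈ S.secIn n (S.N n), (∀ w : List X, w.length = n → w ∉ T → S.wsec g w = 1) →
      g ∈ ⨆ v : {v : List X // v.length = n}, S.Rist v.1 := by
  classical
  induction T using Finset.induction_on with
  | empty =>
    intro g hg h
    have : g = 1 := hF.eq_one hg.1 fun w hw => h w hw (by simp)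
    rw [this]
    exact Subgroup.one_mem _
  | insert v T hv ih =>
    intro g hg h
    by_cases hvn : v.length = n
    · obtain ⟨k, hk⟩ := hg.2 v hvn v hvn
      have hkR : k ∈ ⨆ v : {v : List X // v.length = n}, S.Rist v.1 :=
        Subgroup.mem_iSup_of_mem (⟨v, hvn⟩ : {v : List X // v.length = n})
          ((mem_Rist_iff hF).2 ⟨_, hk⟩)
      have hki := hk.inv
      have hkL : k⁻¹ ∈ S.LSt n := by rw [← hvn]; exact hki.1
      have hsec : ∀ w : List X, w.length = n → S.wsec (g * k⁻¹) w =
          if w = v then 1 else S.wsec g w := by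
        intro w hw
        rw [S.wsec_mul_of_LSt hkL hw]
        split_ifs with hwv
        · subst hwv; rw [hki.2.1, mul_inv_cancel]
        · rw [hki.2.2 w (hw.trans hvn.symm) hwv, mul_one]
      have h1 : g * k⁻¹ ∈ ⨆ v : {v : List X // v.length = n}, S.Rist v.1 := by
        refine ih (g * k⁻¹) ⟨(S.LSt n).mul_mem hg.1 hkL, fun w hw => ?_⟩ fun w hw hwT => ?_
        · rw [hsec w hw]
          split_ifs
          · exact Subgroup.one_mem _
          · exact hg.2 w hw
        · rw [hsec w hw]
          split_ifs with hwv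
          · rfl
          · exact h w hw (by simp [hwv, hwT])
      have := Subgroup.mul_mem _ h1 hkR
      simpa using this
    · refine ih g hg fun w hw hwT => h w hw ?_
      intro hmem
      rcases Finset.mem_insert.1 hmem with rfl | h'
      · exact hvn hw
      · exact hwT h'

theorem branch_of_N [Fintype X] [Nonempty X] (hF : S.Faithful) (hT : S.LevTrans)
    (hN : ∀ n, (S.N n).FiniteIndex) : S.Branch := by
  refine ⟨hT, fun n => ?_⟩
  refine @Subgroup.finiteIndex_of_le _ _ _ _ (S.secIn_finiteIndex n (hN n)) fun g hg => ?_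
  refine mem_iSup_Rist hF (lev X n) g hg fun w hw h => ?_
  exact absurd (mem_lev.2 hw) h

end SelfSim
end PCF
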