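import Pool.Agent.Work.MP_80ff4e_al.Interface2
import Pool.Agent.Work.MP_80ff4e_al_helper52.C0a

set_option autoImplicit false

namespace PCF

theorem stmt_C0 : Stmt_C0 := by
  intro G X _ _ S hX hF hS hT
  have hne : Nonempty X := Fintype.card_pos_iff.1 (by omega)
  refine ⟨fun w g => hS.word w g, fun g n hg h => hF.eq_one hg h, fun w u => S.K_le_K_append w u,
    fun w g => S.map_conj_K w g, fun n => S.LSt_finiteIndex n, fun w => S.St_finiteIndex w,
    fun M hM w => hS.secSub_normal hM w, fun M hM u v huv => hS.secSub_eq hT hM huv,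
    fun M w u => S.secSub_append M w u, fun M w hM => hS.secSub_finiteIndex hM w,
    fun n => SelfSim.N_normal hS n, fun n => SelfSim.N_succ_le hF n,
    fun k k' v h H H' => H.unique hF H', fun k k' v v' h h' hvv hne H H' => H.commute hF hvv hne H',
    fun g k v h H => H.conj g, fun k v u h h' H H' => H.comp H', fun k v u h H => H.split hF,
    fun m n h => SelfSim.mem_N_add hF m n h, fun n h => SelfSim.mem_N_iff hS hT,
    fun k v => SelfSim.mem_Rist_iff hF, fun hN => SelfSim.branch_of_N hF hT hN⟩

end PCF
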