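import Pool.Agent.Work.MP_80ff4e_al_helper52.C10b
import Pool.Agent.Work.MP_80ff4e_al_helper52.C7

/-!
# MP_80ff4e_al, block C10
-/

set_option autoImplicit false

namespace PCF

open scoped commutatorElement
open D2 SelfSim

variable {G X : Type} [Group G] [Fintype X] {S : SelfSim G X}

/-- C9 for one `S` -/
def Loc (S : SelfSim G X) (δ : ℕ) : Prop :=
  ∀ (n : ℕ) (ζ : List X → G → ℚ), Rel S (n + δ) ζ → ∀ w : List X, w.length = n →
    Rel S δ (fun u => ζ (w ++ u))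

theorem exists_J4 (C : Core S) {l₀ n₁ δ m k : ℕ}
    (hC : ∀ m : ℕ, ∀ φ : G → ℚ, IsVHom φ → (∀ h ∈ S.N m, φ h = 0) → ∀ h ∈ S.N l₀, φ h = 0)
    (hn₁ : ∀ w : List X, n₁ ≤ w.length → S.secSub (S.N l₀) w = ⊤) (hδ : Loc S δ)
    (hcl : ∀ m, ∃ J : Subgroup G, J.Normal ∧ J.FiniteIndex ∧ gam J (k + 2) ≤ S.N m)
    {J : Subgroup G} (hJn : J.Normal) (hJf : J.FiniteIndex) (hJc : gam J (k + 2) ≤ S.N m) :
    ∃ J₄ : Subgroup G, J₄.Normal ∧ J₄.FiniteIndex ∧ J₄ ≤ J ∧
      ∀ l, S.Adm m k J l → ∀ y ∈ gam J₄ (k + 1), l y = 0 := by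
  classical
  have hF := C.faithful
  have hS := C.selfrep
  have hne := C.nonempty
  obtain ⟨J₁, hJ₁n, hJ₁f, hJ₁c⟩ := hcl (m + n₁)
  obtain ⟨J₂, hJ₂n, hJ₂f, hJ₂c⟩ := hcl (m + n₁ + δ)
  set S₂ := J₁ ⊓ S.secIn δ J₂ with hS₂
  have hS₂f : S₂.FiniteIndex := by
    have := secIn_finiteIndex (S := S) δ hJ₂f
    exact inferInstance
  set T := J ⊓ S.secIn n₁ S₂ with hT
  have hTf : T.FiniteIndex := by
    have := secIn_finiteIndex (S := S) n₁ hS₂f
    exact inferInstance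
  set R := S₂ ⊓ ⨅ w : {w : List X // w.length = n₁}, S.secSub (S.N l₀ ⊓ T) w.1 with hR
  have hRf : R.FiniteIndex := by
    have : (⨅ w : {w : List X // w.length = n₁}, S.secSub (S.N l₀ ⊓ T) w.1).FiniteIndex :=
      Subgroup.finiteIndex_iInf fun w => secSub_inf_finiteIndex hTf (hn₁ w.1 w.2.ge)
    exact inferInstance
  set J₃ := R.normalCore with hJ₃
  have hJ₃R : J₃ ≤ R := R.normalCore_le
  have hJ₃f : J₃.FiniteIndex := inferInstance
  have hJ₃S₂ : J₃ ≤ S₂ := hJ₃R.trans inf_le_left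
  have hJ₃J₁ : J₃ ≤ J₁ := hJ₃S₂.trans inf_le_left
  refine ⟨J ⊓ S.secIn n₁ J₃, ?_, ?_, inf_le_left, ?_⟩
  · have := secIn_normal (S := S) n₁ (show J₃.Normal from R.normalCore_normal)
    exact inferInstance
  · have := secIn_finiteIndex (S := S) n₁ hJ₃f
    exact inferInstance
  intro l hl
  obtain ⟨L, hL1, hL2⟩ := hl.decomp (n := n₁) (J' := J₁) hF hS hJ₁c
  -- second decomposition
  have hdec2 : ∀ w : List X, ∃ L' : List X → G → ℚ, w.length = n₁ →
      (∀ v, v.length = δ → S.Adm (m + n₁ + δ) k J₂ (L' v)) ∧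
        ∀ y ∈ gam S₂ (k + 1), L w y = ∑ v ∈ lev X δ, L' v (S.wsec y v) := by
    intro w
    by_cases hw : w.length = n₁
    · obtain ⟨L', h1, h2⟩ := (hL1 w hw).decomp (n := δ) (J' := J₂) hF hS hJ₂c
      exact ⟨L', fun _ => ⟨h1, h2⟩⟩
    · exact ⟨fun _ _ => 0, fun h => absurd h hw⟩
  choose L' hL' using hdec2
  -- the main claim
  have hTL1 : T ≤ S.secIn n₁ S₂ := inf_le_right
  have hTJ : T ≤ J := inf_le_left
  have hTle : T ≤ J ⊓ S.secIn n₁ J₁ := le_inf inf_le_left (inf_le_right.trans (secIn_mono inf_le_left))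
  have hT2 : T ≤ S.secIn (n₁ + δ) J₂ := by
    intro a ha
    have h1 := hTL1 ha
    constructor
    · intro v hv
      obtain ⟨w, u, rfl, hw, -⟩ := exists_take_drop (n := n₁) (w := v) (by omega)
      have hu : u.length = δ := by simp only [List.length_append] at hv; omega
      rw [S.wact_append, h1.1 w hw, (h1.2 w hw).2.1 u hu]
    · intro v hv
      obtain ⟨w, u, rfl, hw, -⟩ := exists_take_drop (n := n₁) (w := v) (by omega)
      have hu : u.length = δ := by simp only [List.length_append] at hv; omega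
      rw [S.wsec_append]
      exact (h1.2 w hw).2.2 u hu
  have main : ∀ h ∈ S.N l₀ ⊓ T, ∀ as : List G, (∀ a ∈ as, a ∈ T) → as.length = k →
      ∀ w : List X, w.length = n₁ → ∀ g ∈ S₂, L w ⁅S.wsec (lc h as) w, g⁆ = 0 := by
    intro h hh as has hlen
    set y := lc h as with hy
    have hyT : y ∈ gam T k := by
      have := lc_mem_gam (r := 0) (J := T) as hh.2 has
      rwa [zero_add, hlen] at this
    have hyL : y ∈ S.LSt (n₁ + δ) := (hT2 (gam_le T k hyT)).1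
    have hyL1 : y ∈ S.LSt n₁ := (hTL1 (gam_le T k hyT)).1
    -- the relation
    have hadd : ∀ v : List X, v.length = n₁ + δ → ∀ a ∈ J₂, ∀ b ∈ J₂,
        L' (v.take n₁) (v.drop n₁) ⁅S.wsec y v, a * b⁆ =
        L' (v.take n₁) (v.drop n₁) ⁅S.wsec y v, a⁆ + L' (v.take n₁) (v.drop n₁) ⁅S.wsec y v, b⁆ := by
      intro v hv a ha b hb
      have hA := (hL' (v.take n₁) (by simp [hv])).1 (v.drop n₁) (by simp [hv])
      have hyv : S.wsec y v ∈ gam J₂ k := wsec_mem_gam hT2 hv k y hyT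
      obtain ⟨n, hn, hn', e⟩ := comm_mul_right hJ₂c hyv ha hb
      have m1 : ⁅S.wsec y v, a⁆ ∈ gam J₂ (k + 1) := comm_mem_gam hyv ha
      have m2 : ⁅S.wsec y v, b⁆ ∈ gam J₂ (k + 1) := comm_mem_gam hyv hb
      have m3 : n ∈ gam J₂ (k + 1) := gam_succ_le _ _ hn'
      rw [e, hA.add _ m1 _ (Subgroup.mul_mem _ m3 m2), hA.add _ m3 _ m2, hA.zero _ m3 hn, zero_add]
    have hζ : ∀ v : List X, ∃ ψ : G → ℚ, IsVHom ψ ∧ (v.length = n₁ + δ →
        ∀ a ∈ J₂, ψ a = L' (v.take n₁) (v.drop n₁) ⁅S.wsec y v, a⁆) := by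
      intro v
      by_cases hv : v.length = n₁ + δ
      · obtain ⟨ψ, h1, h2⟩ := (stmt_V G).2.2.2.2.2.2.1 J₂ hJ₂f
          (fun a => L' (v.take n₁) (v.drop n₁) ⁅S.wsec y v, a⁆) (hadd v hv)
        exact ⟨ψ, h1, fun _ => h2⟩
      · refine ⟨fun _ => 0, ⟨fun _ _ => by simp, ⊤, inferInstance, inferInstance,
          fun _ _ _ _ => by simp⟩, fun h => absurd h hv⟩
    choose ζ hζ1 hζ2 using hζ
    have hsumT : ∀ g ∈ T, ∑ v ∈ lev X (n₁ + δ), ζ v (S.wsec g v) = 0 := by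
      intro g hg
      have h1 : l ⁅y, g⁆ = 0 := by
        rw [hy, ← lc_snoc]
        refine hl.lc_vanish hC hS hJf hJc hh.1 (hTJ hh.2) _ ?_ (by simp [hlen])
        intro b hb
        rcases List.mem_append.1 hb with hb | hb
        · exact hTJ (has b hb)
        · rw [List.mem_singleton.1 hb]; exact hTJ hg
      have hyg : ⁅y, g⁆ ∈ gam T (k + 1) := comm_mem_gam hyT hg
      rw [hL2 _ (gam_mono' hTle _ hyg)] at h1
      rw [sum_lev_add, ← h1]
      refine Finset.sum_congr rfl fun w hw => ?_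
      rw [mem_lev] at hw
      rw [(hL' w hw).2 _ (wsec_mem_gam hTL1 hw (k + 1) _ hyg)]
      refine Finset.sum_congr rfl fun u hu => ?_
      rw [mem_lev] at hu
      have hl' : (w ++ u).length = n₁ + δ := by simp [hw, hu]
      rw [hζ2 (w ++ u) hl' _ ((hT2 hg).2 _ hl'), ← S.wsec_append,
        wsec_commutator hyL (hT2 hg).1 hl', List.take_left' hw, List.drop_left' hw]
    have hrel : Rel S (n₁ + δ) ζ := by
      refine ⟨hζ1, fun g hg => ?_⟩
      obtain ⟨p, hp, hpT⟩ := exists_pow_mem_fi T hTf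
      have h1 := hsumT _ (hpT g)
      have h2 : ∀ v ∈ lev X (n₁ + δ), ζ v (S.wsec (g ^ p) v) = p * ζ v (S.wsec g v) := by
        intro v hv
        rw [wsec_pow_of_LSt hg (mem_lev.1 hv), (hζ1 v).1]
      rw [Finset.sum_congr rfl h2, ← Finset.mul_sum] at h1
      have hp' : (p : ℚ) ≠ 0 := by exact_mod_cast hp.ne'
      rcases mul_eq_zero.1 h1 with h4 | h4
      · exact absurd h4 hp'
      · exact h4
    intro w hw g hg
    have h1 := (hδ n₁ ζ hrel w hw).2 g hg.2.1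
    have hyw : S.wsec y w ∈ gam S₂ k := wsec_mem_gam hTL1 hw k y hyT
    rw [(hL' w hw).2 _ (comm_mem_gam hyw hg), ← h1]
    refine Finset.sum_congr rfl fun u hu => ?_
    rw [mem_lev] at hu
    have hl' : (w ++ u).length = n₁ + δ := by simp [hw, hu]
    show _ = ζ (w ++ u) (S.wsec g u)
    rw [hζ2 (w ++ u) hl' _ (hg.2.2 u hu), List.take_left' hw, List.drop_left' hw, S.wsec_append,
      wsec_commutator (gam_le _ _ hyw).2.1 hg.2.1 hu]
  -- conclusion
  have hL3 : ∀ w : List X, w.length = n₁ → ∀ z ∈ gam J₃ (k + 1), L w z = 0 := by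
    intro w hw
    have hA := hL1 w hw
    have one : L w 1 = 0 := hA.zero 1 (Subgroup.one_mem _) (Subgroup.one_mem _)
    let Λ : Subgroup G :=
      { carrier := {z | z ∈ gam J₁ (k + 1) ∧ L w z = 0}
        one_mem' := ⟨Subgroup.one_mem _, one⟩
        mul_mem' := by
          rintro a b ⟨ha, ha'⟩ ⟨hb, hb'⟩
          exact ⟨Subgroup.mul_mem _ ha hb, by rw [hA.add a ha b hb, ha', hb', add_zero]⟩
        inv_mem' := by
          rintro a ⟨ha, ha'⟩
          refine ⟨Subgroup.inv_mem _ ha, ?_⟩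
          have := hA.add a ha a⁻¹ (Subgroup.inv_mem _ ha)
          rw [mul_inv_cancel, one, ha', zero_add] at this
          exact this.symm }
    have h1 : gam J₃ (k + 1) ≤ Λ := by
      refine gam_le_of_lc (k + 1) ?_ ?_
      · rintro j hj z ⟨hz, hz'⟩
        have hjJ := hJ₃J₁ hj
        have m1 : ⁅j, z⁆ ∈ gam J₁ (k + 2) := by
          rw [← commutatorElement_inv]
          exact Subgroup.inv_mem _ (comm_mem_gam hz hjJ)
        have m2 : ⁅j, z⁆ ∈ gam J₁ (k + 1) := gam_succ_le _ _ m1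
        have e : j * z * j⁻¹ = ⁅j, z⁆ * z := by simp only [commutatorElement_def]; group
        refine ⟨gam_conj _ _ j hjJ z hz, ?_⟩
        rw [e, hA.add _ m2 _ hz, hz', hA.zero _ m2 (hJ₁c m1), add_zero]
      · intro h hh as has hlen
        have hres : ∀ a ∈ J₃, ∃ b ∈ S.N l₀ ⊓ T, S.wsec b w = a := by
          intro a ha
          have h1 : a ∈ ⨅ w : {w : List X // w.length = n₁}, S.secSub (S.N l₀ ⊓ T) w.1 :=
            (hJ₃R ha).2
          rw [Subgroup.mem_iInf] at h1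
          obtain ⟨b, hb, -, hb'⟩ := (S.mem_secSub).1 (h1 ⟨w, hw⟩)
          exact ⟨b, hb, hb'⟩
        have hf : ∀ a : G, ∃ b : G, a ∈ J₃ → b ∈ S.N l₀ ⊓ T ∧ S.wsec b w = a := by
          intro a
          by_cases ha : a ∈ J₃
          · obtain ⟨b, hb, hb'⟩ := hres a ha
            exact ⟨b, fun _ => ⟨hb, hb'⟩⟩
          · exact ⟨1, fun h => absurd h ha⟩
        choose f hf using hf
        obtain ⟨as', a, rfl⟩ : ∃ as' a, as = as' ++ [a] :=
          ⟨as.dropLast, as.getLast (by intro h0; simp [h0] at hlen), (List.dropLast_append_getLast _).symm⟩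
        have hlen' : as'.length = k := by simpa using hlen
        have has' : ∀ b ∈ as', b ∈ J₃ := fun b hb => has b (by simp [hb])
        have haJ : a ∈ J₃ := has a (by simp)
        have h2 := main (f h) (hf h hh).1 (as'.map f) (by
          intro b hb
          obtain ⟨c, hc, rfl⟩ := List.mem_map.1 hb
          exact (hf c (has' c hc)).1.2) (by simp [hlen']) w hw a (hJ₃S₂ haJ)
        have h3 : S.wsec (lc (f h) (as'.map f)) w = lc h as' := by
          rw [wsec_lc hw _ (hTL1 (hf h hh).1.2).1 (by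
            intro b hb
            obtain ⟨c, hc, rfl⟩ := List.mem_map.1 hb
            exact (hTL1 (hf c (has' c hc)).1.2).1), List.map_map, (hf h hh).2]
          congr 1
          conv_rhs => rw [← List.map_id as']
          refine List.map_congr_left fun c hc => ?_
          exact (hf c (has' c hc)).2
        rw [h3] at h2
        refine ⟨?_, ?_⟩
        · have := lc_mem_gam (r := 0) (J := J₁) (as' ++ [a]) (hJ₃J₁ hh) (fun b hb => hJ₃J₁ (has b hb))
          rwa [zero_add, hlen] at this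
        · rw [lc_snoc]; exact h2
    exact fun z hz => (h1 hz).2
  intro y hy
  have hy1 : y ∈ gam (J ⊓ S.secIn n₁ J₁) (k + 1) :=
    gam_mono' (inf_le_inf_left _ (secIn_mono hJ₃J₁)) _ hy
  rw [hL2 y hy1]
  refine Finset.sum_eq_zero fun w hw => ?_
  rw [mem_lev] at hw
  exact hL3 w hw _ (wsec_mem_gam inf_le_right hw (k + 1) y hy)

/-- A finitely generated group modulo a subgroup containing commutators and `e`-th powers. -/
theorem relIndex_of_torsion {J D : Subgroup G} (hJ : J.FG) {e : ℕ} (he : 0 < e)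
    (h1 : ∀ a ∈ J, a ^ e ∈ D) (h2 : ∀ a ∈ J, ∀ b ∈ J, ⁅a, b⁆ ∈ D)
    (hn : (D.subgroupOf J).Normal) : D.relIndex J ≠ 0 := by
  have hfg : Group.FG J := (Group.fg_iff_subgroup_fg J).2 hJ
  let R := J ⧸ D.subgroupOf J
  have hcomm : ∀ a b : R, a * b = b * a := by
    intro x y
    obtain ⟨a, rfl⟩ := QuotientGroup.mk_surjective x
    obtain ⟨b, rfl⟩ := QuotientGroup.mk_surjective y
    rw [← QuotientGroup.mk_mul, ← QuotientGroup.mk_mul, QuotientGroup.eq, Subgroup.mem_subgroupOf]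
    have e : (((a * b)⁻¹ * (b * a) : J) : G) = ⁅(b : G)⁻¹, (a : G)⁻¹⁆ := by
      simp only [commutatorElement_def, Subgroup.coe_mul, Subgroup.coe_inv]; group
    rw [e]
    exact h2 _ (J.inv_mem b.2) _ (J.inv_mem a.2)
  let _ : CommGroup R := { (inferInstance : Group R) with mul_comm := hcomm }
  have hfgR : Group.FG R := Group.fg_of_surjective (QuotientGroup.mk'_surjective (D.subgroupOf J))
  have htor : IsMulTorsion R := by
    intro x
    obtain ⟨a, rfl⟩ := QuotientGroup.mk_surjective x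
    rw [isOfFinOrder_iff_pow_eq_one]
    refine ⟨e, he, ?_⟩
    rw [← QuotientGroup.mk_pow, QuotientGroup.eq_one_iff, Subgroup.mem_subgroupOf]
    exact h1 _ a.2
  have : Finite R := CommGroup.finite_of_fg_isMulTorsion R htor
  have hfi : (D.subgroupOf J).FiniteIndex := Subgroup.finiteIndex_of_finite_quotient
  exact hfi.1

theorem stmt_C10 (hC3 : Stmt_C3) (hC5 : Stmt_C5) (hC8a : Stmt_C8a) (hC8b : Stmt_C8b)
    (hC9 : Stmt_C9) : Stmt_C10 := by
  classical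
  intro G X _ _ S C
  have hS := C.selfrep
  have hP : ∃ c : ℕ, ∀ m : ℕ, ∃ J : Subgroup G, J.Normal ∧ J.FiniteIndex ∧ gam J c ≤ S.N m :=
    hC8b G X S C
  by_cases hc : Nat.find hP ≤ 1
  · intro m
    obtain ⟨J, h1, h2, h3⟩ := Nat.find_spec hP m
    refine ⟨J, h1, h2, le_trans ?_ h3⟩
    rcases Nat.le_one_iff_eq_zero_or_eq_one.1 hc with h0 | h0
    · rw [h0]; exact gam_succ_le J 0
    · rw [h0]
  exfalso
  obtain ⟨k, hk⟩ : ∃ k, Nat.find hP = k + 2 := ⟨Nat.find hP - 2, by omega⟩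
  have hcl : ∀ m, ∃ J : Subgroup G, J.Normal ∧ J.FiniteIndex ∧ gam J (k + 2) ≤ S.N m := by
    rw [← hk]; exact Nat.find_spec hP
  have hmin : ¬ ∀ m, ∃ J : Subgroup G, J.Normal ∧ J.FiniteIndex ∧ gam J (k + 1) ≤ S.N m :=
    Nat.find_min hP (by omega)
  apply hmin
  intro m
  obtain ⟨J, hJn, hJf, hJc⟩ := hcl m
  obtain ⟨l₀, hl₀⟩ := hC8a G X S C
  obtain ⟨n₁, hn₁⟩ := ((hC3 G X S C).1 (S.N l₀) (N_normal hS l₀) (hC5 G X S C l₀)).2
  obtain ⟨δ, hδ⟩ := hC9 G X S C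
  obtain ⟨J₄, hJ₄n, hJ₄f, hJ₄J, hJ₄⟩ := exists_J4 C hl₀ hn₁ hδ hcl hJn hJf hJc
  obtain ⟨Q, _, q, hq1, hq2⟩ := exists_comm_quot (gam J (k + 1)) (S.N m)
    (N_normal hS m) ((Subgroup.commutator_le.2 fun a ha b hb => hJc (comm_gam_gam ha hb)))
  have hJ₄g : gam J₄ (k + 1) ≤ gam J (k + 1) := gam_mono' hJ₄J _
  have hN0 : ∀ a ∈ gam J (k + 2), q a = 0 := fun a ha => (hq2 a (gam_succ_le _ _ ha)).2 (hJc ha)
  have tors : ∀ y ∈ gam J₄ (k + 1), ∃ n : ℕ, 0 < n ∧ n • q y = 0 := by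
    intro y hy
    refine torsion_of_hom (q y) fun φ => ?_
    refine hJ₄ (fun g => φ (q g)) ⟨fun a ha b hb => ?_, fun a ha haN => ?_⟩ y hy
    · show φ (q (a * b)) = φ (q a) + φ (q b)
      rw [hq1 a ha b hb, map_add]
    · show φ (q a) = 0
      rw [(hq2 a ha).2 haN, map_zero]
  -- a uniform exponent
  obtain ⟨e, he, hexp⟩ : ∃ e : ℕ, 0 < e ∧ ∀ y ∈ gam J₄ (k + 1), e • q y = 0 := by
    have hfg : J₄.FG := by
      have := C.fg
      exact (Group.fg_iff_subgroup_fg J₄).1 (Subgroup.fg_of_index_ne_zero J₄)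
    obtain ⟨F, hF1, hF2⟩ := gam_fg J₄ hfg (k + 1)
    choose! n hn hn' using tors
    refine ⟨∏ s ∈ F, n s, Finset.prod_pos fun s hs => hn s (hF1 s hs), ?_⟩
    set e := ∏ s ∈ F, n s with he
    have one : q 1 = 0 := (hq2 1 (Subgroup.one_mem _)).2 (Subgroup.one_mem _)
    let E : Subgroup G :=
      { carrier := {z | z ∈ gam J (k + 1) ∧ e • q z = 0}
        one_mem' := ⟨Subgroup.one_mem _, by rw [one, smul_zero]⟩
        mul_mem' := by
          rintro a b ⟨ha, ha'⟩ ⟨hb, hb'⟩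
          exact ⟨Subgroup.mul_mem _ ha hb, by rw [hq1 a ha b hb, smul_add, ha', hb', add_zero]⟩
        inv_mem' := by
          rintro a ⟨ha, ha'⟩
          refine ⟨Subgroup.inv_mem _ ha, ?_⟩
          have := hq1 a ha a⁻¹ (Subgroup.inv_mem _ ha)
          rw [mul_inv_cancel, one] at this
          have h3 : q a⁻¹ = - q a := (neg_eq_of_add_eq_zero_right this.symm).symm
          rw [h3, smul_neg, ha', neg_zero] }
    have hE : gam J₄ (k + 1) ≤ E := by
      refine hF2.trans (sup_le ?_ ?_)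
      · rw [Subgroup.closure_le]
        intro s hs
        have hs' := hF1 s hs
        refine ⟨hJ₄g hs', ?_⟩
        obtain ⟨t, ht⟩ : n s ∣ e := Finset.dvd_prod_of_mem n hs
        rw [ht, mul_comm, mul_smul, hn' s hs', smul_zero]
      · intro z hz
        have hz' : z ∈ gam J (k + 2) := gam_mono' hJ₄J _ hz
        exact ⟨gam_succ_le _ _ hz', by rw [hN0 z hz', smul_zero]⟩
    exact fun y hy => (hE hy).2
  -- the additive maps `a ↦ q [y, a]`
  have hβ : ∀ y ∈ gam J₄ k, ∀ a ∈ J₄, ∀ b ∈ J₄, q ⁅y, a * b⁆ = q ⁅y, a⁆ + q ⁅y, b⁆ := by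
    intro y hy a ha b hb
    have hy' : y ∈ gam J k := gam_mono' hJ₄J _ hy
    obtain ⟨n, hn, hn', e⟩ := comm_mul_right hJc hy' (hJ₄J ha) (hJ₄J hb)
    have m1 : ⁅y, a⁆ ∈ gam J (k + 1) := comm_mem_gam hy' (hJ₄J ha)
    have m2 : ⁅y, b⁆ ∈ gam J (k + 1) := comm_mem_gam hy' (hJ₄J hb)
    have m3 : n ∈ gam J (k + 1) := gam_succ_le _ _ hn'
    rw [e, hq1 _ m1 _ (Subgroup.mul_mem _ m3 m2), hq1 _ m3 _ m2, hN0 _ hn', zero_add]
  have hβm : ∀ y ∈ gam J₄ k, ∀ a ∈ J₄, (⁅y, a⁆ ∈ S.N m ↔ q ⁅y, a⁆ = 0) := fun y hy a ha =>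
    (hq2 _ (hJ₄g (comm_mem_gam hy ha))).symm
  have hβ1 : ∀ y : G, q ⁅y, (1 : G)⁆ = 0 := by
    intro y
    rw [commutatorElement_one_right]
    exact (hq2 1 (Subgroup.one_mem _)).2 (Subgroup.one_mem _)
  have hβi : ∀ y ∈ gam J₄ k, ∀ a ∈ J₄, q ⁅y, a⁻¹⁆ = - q ⁅y, a⁆ := by
    intro y hy a ha
    have := hβ y hy a ha a⁻¹ (J₄.inv_mem ha)
    rw [mul_inv_cancel, hβ1] at this
    exact (neg_eq_of_add_eq_zero_right this.symm).symm
  have hβp : ∀ y ∈ gam J₄ k, ∀ a ∈ J₄, ∀ p : ℕ, q ⁅y, a ^ p⁆ = p • q ⁅y, a⁆ := by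
    intro y hy a ha p
    induction p with
    | zero => rw [pow_zero, hβ1, zero_smul]
    | succ p ih => rw [pow_succ, hβ y hy _ (J₄.pow_mem ha p) a ha, ih, succ_nsmul]
  let J₆ : Subgroup G :=
    { carrier := {a | a ∈ J₄ ∧ ∀ y ∈ gam J₄ k, q ⁅y, a⁆ = 0}
      one_mem' := ⟨J₄.one_mem, fun y _ => hβ1 y⟩
      mul_mem' := by
        rintro a b ⟨ha, ha'⟩ ⟨hb, hb'⟩
        exact ⟨J₄.mul_mem ha hb, fun y hy => by rw [hβ y hy a ha b hb, ha' y hy, hb' y hy, add_zero]⟩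
      inv_mem' := by
        rintro a ⟨ha, ha'⟩
        exact ⟨J₄.inv_mem ha, fun y hy => by rw [hβi y hy a ha, ha' y hy, neg_zero]⟩ }
  have hJ₆J₄ : J₆ ≤ J₄ := fun a ha => ha.1
  have hJ₆n : J₆.Normal := by
    constructor
    rintro a ⟨ha, ha'⟩ g
    have hga : g * a * g⁻¹ ∈ J₄ := hJ₄n.conj_mem a ha g
    refine ⟨hga, fun y hy => ?_⟩
    rw [← hβm y hy _ hga]
    have e : ⁅y, g * a * g⁻¹⁆ = g * ⁅g⁻¹ * y * (g⁻¹)⁻¹, a⁆ * g⁻¹ := by
      simp only [commutatorElement_def]; group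
    have hy' : g⁻¹ * y * (g⁻¹)⁻¹ ∈ gam J₄ k := by
      have hmap : (gam J₄ k).map (MulAut.conj g⁻¹).toMonoidHom = gam J₄ k := by
        rw [← gam_map]
        congr 1
        exact Subgroup.Normal.map_conj_eq J₄ g⁻¹
      rw [← hmap]
      exact ⟨y, hy, rfl⟩
    rw [e]
    exact (N_normal hS m).conj_mem _ ((hβm _ hy' a ha).2 (ha' _ hy')) g
  refine ⟨J₆, hJ₆n, ?_, ?_⟩
  · have hfg : J₄.FG := by
      have := C.fg
      exact (Group.fg_iff_subgroup_fg J₄).1 (Subgroup.fg_of_index_ne_zero J₄)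
    have hrel : J₆.relIndex J₄ ≠ 0 := by
      refine relIndex_of_torsion hfg he (fun a ha => ⟨J₄.pow_mem ha e, fun y hy => ?_⟩)
        (fun a ha b hb => ⟨?_, fun y hy => ?_⟩) (hJ₆n.subgroupOf J₄)
      · rw [hβp y hy a ha, hexp _ (comm_mem_gam hy ha)]
      · rw [commutatorElement_def]
        exact J₄.mul_mem (J₄.mul_mem (J₄.mul_mem ha hb) (J₄.inv_mem ha)) (J₄.inv_mem hb)
      · rw [show ⁅a, b⁆ = a * b * a⁻¹ * b⁻¹ from rfl,
          hβ y hy _ (J₄.mul_mem (J₄.mul_mem ha hb) (J₄.inv_mem ha)) _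
          (J₄.inv_mem hb), hβ y hy _ (J₄.mul_mem ha hb) _ (J₄.inv_mem ha), hβ y hy a ha b hb,
          hβi y hy a ha, hβi y hy b hb]
        abel
    constructor
    rw [← Subgroup.relIndex_mul_index hJ₆J₄]
    exact mul_ne_zero hrel hJ₄f.1
  · show ⁅gam J₆ k, J₆⁆ ≤ S.N m
    rw [Subgroup.commutator_le]
    intro y hy a ha
    have hy' := gam_mono' hJ₆J₄ k hy
    exact (hβm y hy' a ha.1).2 (ha.2 y hy')

end PCF
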