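import Pool.Agent.Work.MP_80ff4e_al.Interface2
import Pool.Agent.Work.MP_80ff4e_al_helper52.C0a
import Pool.Agent.Work.MP_80ff4e_al_helper82.D1
import Pool.Agent.Work.MP_80ff4e_al_helper82.D2

/-!
# MP_80ff4e_al, block C10, part a: commutator calculus and extension lemmas
-/

set_option autoImplicit false

namespace PCF

open scoped commutatorElement
open D2

variable {G : Type} [Group G]

/-! ### Iterated commutators -/

/-- `lc h [a₁, ..., a_r] = [...[[h, a₁], a₂] ..., a_r]` -/
def lc (h : G) (as : List G) : G := as.foldl (fun y a => ⁅y, a⁆) h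

@[simp] theorem lc_nil (h : G) : lc h [] = h := rfl
@[simp] theorem lc_cons (h a : G) (as : List G) : lc h (a :: as) = lc ⁅h, a⁆ as := rfl
theorem lc_snoc (h a : G) (as : List G) : lc h (as ++ [a]) = ⁅lc h as, a⁆ := by
  simp [lc]

theorem gam_mono' {J J' : Subgroup G} (h : J ≤ J') (i : ℕ) : gam J i ≤ gam J' i := by
  induction i with
  | zero => exact h
  | succ i ih => exact Subgroup.commutator_mono ih h

theorem lc_mem_gam {J : Subgroup G} (as : List G) : ∀ {r : ℕ} {h : G}, h ∈ gam J r →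
    (∀ a ∈ as, a ∈ J) → lc h as ∈ gam J (r + as.length) := by
  induction as with
  | nil => intro r h hh _; simpa using hh
  | cons a as ih =>
    intro r h hh has
    rw [lc_cons]
    have h1 : ⁅h, a⁆ ∈ gam J (r + 1) := comm_mem_gam hh (has a (by simp))
    have := ih h1 (fun b hb => has b (by simp [hb]))
    rw [List.length_cons, show r + (as.length + 1) = r + 1 + as.length by omega]
    exact this

theorem lc_mem_normal {N : Subgroup G} (hN : N.Normal) (as : List G) : ∀ {h : G}, h ∈ N →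
    lc h as ∈ N := by
  induction as with
  | nil => intro h hh; exact hh
  | cons a as ih =>
    intro h hh
    refine ih ?_
    show ⁅h, a⁆ ∈ N
    rw [commutatorElement_def, mul_assoc, mul_assoc]
    refine N.mul_mem hh ?_
    rw [← mul_assoc]
    exact hN.conj_mem _ (N.inv_mem hh) a

/-- commutators of elements of `gam J r` (in the last nontrivial layer) -/
theorem comm_gam_gam {J : Subgroup G} {r : ℕ} {x y : G} (hx : x ∈ gam J r) (hy : y ∈ gam J r) :
    ⁅x, y⁆ ∈ gam J (r + 1) := comm_mem_gam hx (gam_le J r hy)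

/-- `x ≡ y` modulo `N`, as `x⁻¹ * y ∈ N`: additivity of `lc` in the first variable. -/
theorem lc_mul {J N : Subgroup G} (hN : N.Normal) {c : ℕ} (hc : gam J (c + 1) ≤ N)
    (as : List G) : ∀ {r : ℕ} {h h' : G}, h ∈ gam J r → h' ∈ gam J r → (∀ a ∈ as, a ∈ J) →
      r + as.length = c → (lc h as * lc h' as)⁻¹ * lc (h * h') as ∈ N := by
  induction as with
  | nil => intro r h h' _ _ _ _; simp [N.one_mem]
  | cons a as ih =>
    intro r h h' hh hh' has hr
    simp only [lc_cons]
    rw [List.length_cons] at hr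
    have ha : a ∈ J := has a (by simp)
    have has' : ∀ b ∈ as, b ∈ J := fun b hb => has b (by simp [hb])
    have e : ⁅h * h', a⁆ = ⁅h, ⁅h', a⁆⁆ * (⁅h', a⁆ * ⁅h, a⁆) := by
      simp only [commutatorElement_def]; group
    have m1 : ⁅h', a⁆ ∈ gam J (r + 1) := comm_mem_gam hh' ha
    have m2 : ⁅h, a⁆ ∈ gam J (r + 1) := comm_mem_gam hh ha
    have m3 : ⁅h, ⁅h', a⁆⁆ ∈ gam J (r + 2) := by
      have : ⁅⁅h', a⁆, h⁆ ∈ gam J (r + 2) := comm_mem_gam m1 (gam_le J r hh)
      rw [← commutatorElement_inv]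
      exact Subgroup.inv_mem _ this
    have m3' : ⁅h, ⁅h', a⁆⁆ ∈ gam J (r + 1) := gam_succ_le J (r + 1) m3
    rw [e]
    have i1 := ih m3' (Subgroup.mul_mem _ m1 m2) has' (by omega)
    have i2 := ih m1 m2 has' (by omega)
    have i3 : lc ⁅h, ⁅h', a⁆⁆ as ∈ N := by
      refine hc ?_
      have := lc_mem_gam as m3 has'
      rwa [show r + 2 + as.length = c + 1 by omega] at this
    -- commutativity of the values
    have v1 : lc ⁅h', a⁆ as ∈ gam J c := by
      have := lc_mem_gam as m1 has'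
      rwa [show r + 1 + as.length = c by omega] at this
    have v2 : lc ⁅h, a⁆ as ∈ gam J c := by
      have := lc_mem_gam as m2 has'
      rwa [show r + 1 + as.length = c by omega] at this
    have v3 : ⁅lc ⁅h, a⁆ as, lc ⁅h', a⁆ as⁆ ∈ N := hc (comm_gam_gam v2 v1)
    generalize lc ⁅h, ⁅h', a⁆⁆ as = A at *
    generalize lc (⁅h, ⁅h', a⁆⁆ * (⁅h', a⁆ * ⁅h, a⁆)) as = Z at *
    generalize lc (⁅h', a⁆ * ⁅h, a⁆) as = B at *
    generalize lc ⁅h', a⁆ as = u at *
    generalize lc ⁅h, a⁆ as = v at *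
    -- work in the quotient
    have Q : ∀ x : G, x ∈ N ↔ ((x : G) : G ⧸ N) = 1 := fun x => (QuotientGroup.eq_one_iff x).symm
    rw [Q] at i1 i2 i3 v3 ⊢
    simp only [commutatorElement_def, QuotientGroup.mk_mul, QuotientGroup.mk_inv] at *
    rw [i3, one_mul] at i1
    have e1 : (Z : G ⧸ N) = B := (inv_mul_eq_one.1 i1).symm
    have e2 : (B : G ⧸ N) = u * v := (inv_mul_eq_one.1 i2).symm
    have e3 : (v : G ⧸ N) * u = u * v :=
      mul_inv_eq_iff_eq_mul.1 (mul_inv_eq_one.1 v3)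
    rw [e1, e2, e3]
    group

/-- additivity of the commutator in the second variable -/
theorem comm_mul_right {J N : Subgroup G} {c : ℕ} (hc : gam J (c + 2) ≤ N) {y a b : G}
    (hy : y ∈ gam J c) (ha : a ∈ J) (hb : b ∈ J) :
    ∃ n ∈ N, n ∈ gam J (c + 2) ∧ ⁅y, a * b⁆ = ⁅y, a⁆ * (n * ⁅y, b⁆) := by
  have m1 : ⁅y, b⁆ ∈ gam J (c + 1) := comm_mem_gam hy hb
  have m2 : ⁅a, ⁅y, b⁆⁆ ∈ gam J (c + 2) := by
    have : ⁅⁅y, b⁆, a⁆ ∈ gam J (c + 2) := comm_mem_gam m1 ha
    rw [← commutatorElement_inv]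
    exact Subgroup.inv_mem _ this
  refine ⟨⁅a, ⁅y, b⁆⁆, hc m2, m2, ?_⟩
  simp only [commutatorElement_def]; group

/-- generation of `gam J r` by iterated commutators -/
theorem gam_le_of_lc {J : Subgroup G} (r : ℕ) : ∀ {L : Subgroup G},
    (∀ j ∈ J, ∀ z ∈ L, j * z * j⁻¹ ∈ L) →
    (∀ h ∈ J, ∀ as : List G, (∀ a ∈ as, a ∈ J) → as.length = r → lc h as ∈ L) →
    gam J r ≤ L := by
  induction r with
  | zero =>
    intro L _ h x hx
    exact h x hx [] (by simp) rfl
  | succ r ih =>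
    intro L hL h
    let L' : Subgroup G :=
      { carrier := {y | y ∈ J ∧ ∀ a ∈ J, ⁅y, a⁆ ∈ L}
        one_mem' := ⟨J.one_mem, fun a _ => by simp [L.one_mem]⟩
        mul_mem' := by
          rintro x y ⟨hx, hx'⟩ ⟨hy, hy'⟩
          refine ⟨J.mul_mem hx hy, fun a ha => ?_⟩
          have e : ⁅x * y, a⁆ = (x * ⁅y, a⁆ * x⁻¹) * ⁅x, a⁆ := by
            simp only [commutatorElement_def]; group
          rw [e]
          exact L.mul_mem (hL x hx _ (hy' a ha)) (hx' a ha)
        inv_mem' := by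
          rintro x ⟨hx, hx'⟩
          refine ⟨J.inv_mem hx, fun a ha => ?_⟩
          have e : ⁅x⁻¹, a⁆ = x⁻¹ * ⁅x, a⁆⁻¹ * (x⁻¹)⁻¹ := by
            simp only [commutatorElement_def]; group
          rw [e]
          exact hL _ (J.inv_mem hx) _ (L.inv_mem (hx' a ha)) }
    have h1 : gam J r ≤ L' := by
      refine ih (L := L') ?_ ?_
      · rintro j hj z ⟨hz, hz'⟩
        refine ⟨J.mul_mem (J.mul_mem hj hz) (J.inv_mem hj), fun a ha => ?_⟩
        have e : ⁅j * z * j⁻¹, a⁆ = j * ⁅z, j⁻¹ * a * j⁆ * j⁻¹ := by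
          simp only [commutatorElement_def]; group
        rw [e]
        exact hL j hj _ (hz' _ (J.mul_mem (J.mul_mem (J.inv_mem hj) ha) hj))
      · intro x hx as has hl
        refine ⟨?_, fun a ha => ?_⟩
        · have := lc_mem_gam as (r := 0) (h := x) (J := J) hx has
          exact gam_le _ _ this
        · rw [← lc_snoc]
          refine h x hx _ ?_ (by simp [hl])
          intro b hb
          rcases List.mem_append.1 hb with hb | hb
          · exact has b hb
          · rw [List.mem_singleton.1 hb]; exact ha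
    show ⁅gam J r, J⁆ ≤ L
    rw [Subgroup.commutator_le]
    intro x hx a ha
    exact (h1 hx).2 a ha

/-! ### Abelian quotients and extension -/

/-- `P / (P ∩ N)` as an additive commutative group. -/
theorem exists_comm_quot (P N : Subgroup G) (hN : N.Normal) (hc : ⁅P, P⁆ ≤ N) :
    ∃ (Q : Type) (_ : AddCommGroup Q) (q : G → Q),
      (∀ a ∈ P, ∀ b ∈ P, q (a * b) = q a + q b) ∧ (∀ a ∈ P, q a = 0 ↔ a ∈ N) := by
  classical
  let N₁ := N.subgroupOf P
  have hn : N₁.Normal := hN.subgroupOf P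
  let R := P ⧸ N₁
  have hcomm : commutator R = ⊥ := by
    rw [commutator_eq_bot_iff_center_eq_top, eq_top_iff]
    intro x _
    rw [Subgroup.mem_center_iff]
    intro y
    obtain ⟨a, rfl⟩ := QuotientGroup.mk_surjective x
    obtain ⟨b, rfl⟩ := QuotientGroup.mk_surjective y
    rw [← QuotientGroup.mk_mul, ← QuotientGroup.mk_mul, QuotientGroup.eq]
    show ((b * a)⁻¹ * (a * b) : P) ∈ N₁
    rw [Subgroup.mem_subgroupOf]
    have e : (((b * a)⁻¹ * (a * b) : P) : G) = ⁅(a : G)⁻¹, (b : G)⁻¹⁆ := by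
      simp only [commutatorElement_def, Subgroup.coe_mul, Subgroup.coe_inv]; group
    rw [e]
    exact hc (Subgroup.commutator_mem_commutator (P.inv_mem a.2) (P.inv_mem b.2))
  let q₁ : P →* Abelianization R := Abelianization.of.comp (QuotientGroup.mk' N₁)
  refine ⟨Additive (Abelianization R), inferInstance,
    fun g => if hg : g ∈ P then Additive.ofMul (q₁ ⟨g, hg⟩) else 0, ?_, ?_⟩
  · intro a ha b hb
    simp only [dif_pos ha, dif_pos hb, dif_pos (P.mul_mem ha hb)]
    rw [← ofMul_mul, ← map_mul]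
    rfl
  · intro a ha
    simp only [dif_pos ha]
    rw [ofMul_eq_zero]
    constructor
    · intro h
      have h1 : (QuotientGroup.mk' N₁ ⟨a, ha⟩ : R) ∈ (Abelianization.of (G := R)).ker := h
      rw [Abelianization.ker_of, hcomm, Subgroup.mem_bot] at h1
      have h2 := (QuotientGroup.eq_one_iff (N := N₁) ⟨a, ha⟩).1 h1
      exact Subgroup.mem_subgroupOf.1 h2
    · intro h
      have h2 : (QuotientGroup.mk' N₁ ⟨a, ha⟩ : R) = 1 :=
        (QuotientGroup.eq_one_iff (N := N₁) ⟨a, ha⟩).2 (Subgroup.mem_subgroupOf.2 h)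
      show Abelianization.of (QuotientGroup.mk' N₁ ⟨a, ha⟩) = 1
      rw [h2, map_one]

/-- extension of a homomorphism to `ℚ` through a map to an abelian group -/
theorem exists_ext {A : Type} [AddCommGroup A] (Y : Subgroup G) (s : G → A) (l : G → ℚ)
    (hs : ∀ a ∈ Y, ∀ b ∈ Y, s (a * b) = s a + s b)
    (hl : ∀ a ∈ Y, ∀ b ∈ Y, l (a * b) = l a + l b) (h0 : ∀ a ∈ Y, s a = 0 → l a = 0) :
    ∃ μ : A →+ ℚ, ∀ a ∈ Y, μ (s a) = l a := by
  classical
  have s1 : s 1 = 0 := by
    have := hs 1 Y.one_mem 1 Y.one_mem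
    rw [mul_one] at this
    simpa using this
  have l1 : l 1 = 0 := h0 1 Y.one_mem s1
  have sinv : ∀ a ∈ Y, s a⁻¹ = - s a := by
    intro a ha
    have := hs a ha a⁻¹ (Y.inv_mem ha)
    rw [mul_inv_cancel, s1] at this
    exact (neg_eq_of_add_eq_zero_right this.symm).symm
  have linv : ∀ a ∈ Y, l a⁻¹ = - l a := by
    intro a ha
    have := hl a ha a⁻¹ (Y.inv_mem ha)
    rw [mul_inv_cancel, l1] at this
    linarith
  have hwd : ∀ a ∈ Y, ∀ b ∈ Y, s a = s b → l a = l b := by
    intro a ha b hb hab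
    have h1 : s (a * b⁻¹) = 0 := by
      rw [hs a ha _ (Y.inv_mem hb), sinv b hb, hab, add_neg_cancel]
    have h2 := h0 _ (Y.mul_mem ha (Y.inv_mem hb)) h1
    rw [hl a ha _ (Y.inv_mem hb), linv b hb] at h2
    linarith
  let B : AddSubgroup A :=
    { carrier := {x | ∃ a ∈ Y, s a = x}
      zero_mem' := ⟨1, Y.one_mem, s1⟩
      add_mem' := by
        rintro _ _ ⟨a, ha, rfl⟩ ⟨b, hb, rfl⟩
        exact ⟨a * b, Y.mul_mem ha hb, hs a ha b hb⟩
      neg_mem' := by
        rintro _ ⟨a, ha, rfl⟩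
        exact ⟨a⁻¹, Y.inv_mem ha, sinv a ha⟩ }
  choose f hf hf' using fun x : B => x.2
  have key : ∀ (x : B) (a : G), a ∈ Y → s a = x → l (f x) = l a := fun x a ha hax =>
    hwd _ (hf x) _ ha ((hf' x).trans hax.symm)
  let φ : B →+ ℚ :=
    { toFun := fun x => l (f x)
      map_zero' := (key 0 1 Y.one_mem s1).trans l1
      map_add' := fun x y => by
        rw [key (x + y) (f x * f y) (Y.mul_mem (hf x) (hf y))
          (by rw [hs _ (hf x) _ (hf y), hf', hf']; rfl), hl _ (hf x) _ (hf y)] }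
  obtain ⟨μ, hμ⟩ := stmt_D4 A B φ
  refine ⟨μ, fun a ha => ?_⟩
  rw [hμ ⟨s a, a, ha, rfl⟩]
  exact key _ a ha rfl

/-- an element killed by all homomorphisms to `ℚ` is torsion -/
theorem torsion_of_hom {A : Type} [AddCommGroup A] (a : A) (ha : ∀ φ : A →+ ℚ, φ a = 0) :
    ∃ n : ℕ, 0 < n ∧ n • a = 0 := by
  by_contra hcon
  push Not at hcon
  have hinj : Function.Injective (zmultiplesHom A a) := by
    intro m n hmn
    simp only [zmultiplesHom_apply] at hmn
    by_contra hne
    have h0 : (m - n) • a = 0 := by rw [sub_zsmul, hmn]; exact add_neg_cancel _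
    rcases lt_trichotomy (m - n) 0 with h | h | h
    · apply hcon (n - m).toNat (by omega)
      rw [← natCast_zsmul, Int.toNat_of_nonneg (by omega), ← neg_sub m n, neg_zsmul, h0, neg_zero]
    · omega
    · apply hcon (m - n).toNat (by omega)
      rw [← natCast_zsmul, Int.toNat_of_nonneg (by omega), h0]
  obtain ⟨h, hh⟩ := (Module.Baer.of_divisible ℚ).extension_property_addMonoidHom (zmultiplesHom A a)
    hinj (Int.castAddHom ℚ)
  have h1 := DFunLike.congr_fun hh 1
  simp [ha h] at h1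

end PCF
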