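import Pool.Agent.Work.MP_80ff4e_al_helper52.C10a
import Pool.Agent.Work.MP_80ff4e_al_helper39.V

/-!
# MP_80ff4e_al, block C10, part b: decomposition of homomorphisms on the last layer
-/

set_option autoImplicit false

namespace PCF

open scoped commutatorElement
open D2

namespace SelfSim

variable {G X : Type} [Group G] {S : SelfSim G X}

/-! ### Sections of commutators -/

theorem wsec_inv_of_LSt {n : ℕ} {a : G} (ha : a ∈ S.LSt n) {v : List X} (hv : v.length = n) :
    S.wsec a⁻¹ v = (S.wsec a v)⁻¹ := by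
  rw [S.wsec_inv, (S.LSt n).inv_mem ha v hv]

theorem wsec_commutator {n : ℕ} {a b : G} (ha : a ∈ S.LSt n) (hb : b ∈ S.LSt n) {v : List X}
    (hv : v.length = n) : S.wsec ⁅a, b⁆ v = ⁅S.wsec a v, S.wsec b v⁆ := by
  have ha' := (S.LSt n).inv_mem ha
  have hb' := (S.LSt n).inv_mem hb
  rw [commutatorElement_def, commutatorElement_def, S.wsec_mul_of_LSt hb' hv,
    S.wsec_mul_of_LSt ha' hv, S.wsec_mul_of_LSt hb hv, wsec_inv_of_LSt ha hv,
    wsec_inv_of_LSt hb hv]

theorem wsec_pow_of_LSt {n : ℕ} {a : G} (ha : a ∈ S.LSt n) {v : List X} (hv : v.length = n)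
    (p : ℕ) : S.wsec (a ^ p) v = S.wsec a v ^ p := by
  induction p with
  | zero => simp
  | succ p ih => rw [pow_succ, S.wsec_mul_of_LSt ha hv, ih, pow_succ]

theorem commutator_mem_LSt {n : ℕ} {a b : G} (ha : a ∈ S.LSt n) (hb : b ∈ S.LSt n) :
    ⁅a, b⁆ ∈ S.LSt n := by
  rw [commutatorElement_def]
  exact Subgroup.mul_mem _ (Subgroup.mul_mem _ (Subgroup.mul_mem _ ha hb)
    (Subgroup.inv_mem _ ha)) (Subgroup.inv_mem _ hb)

theorem wsec_lc {n : ℕ} {v : List X} (hv : v.length = n) (as : List G) : ∀ {h : G},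
    h ∈ S.LSt n → (∀ a ∈ as, a ∈ S.LSt n) →
    S.wsec (lc h as) v = lc (S.wsec h v) (as.map fun a => S.wsec a v) := by
  induction as with
  | nil => intro h _ _; rfl
  | cons a as ih =>
    intro h hh has
    rw [List.map_cons, lc_cons, lc_cons, ih (commutator_mem_LSt hh (has a (by simp)))
      (fun b hb => has b (by simp [hb])), wsec_commutator hh (has a (by simp)) hv]

/-- The elements fixing `v` with section in `M`. -/
def stSec (S : SelfSim G X) (v : List X) (M : Subgroup G) : Subgroup G :=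
  (M.comap (S.secHom v)).map (S.St v).subtype

theorem mem_stSec {v : List X} {M : Subgroup G} {g : G} :
    g ∈ S.stSec v M ↔ S.wact g v = v ∧ S.wsec g v ∈ M := by
  constructor
  · rintro ⟨⟨a, ha⟩, hk, rfl⟩
    exact ⟨ha, hk⟩
  · rintro ⟨h1, h2⟩
    exact ⟨⟨g, h1⟩, h2, rfl⟩

theorem wsec_mem_gam {n : ℕ} {J' T : Subgroup G} (hT : T ≤ S.secIn n J') {v : List X}
    (hv : v.length = n) (i : ℕ) : ∀ y ∈ gam T i, S.wsec y v ∈ gam J' i := by
  have hle : ∀ i, ∀ y ∈ gam T i, y ∈ S.LSt n := fun i y hy => (hT (gam_le T i hy)).1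
  induction i with
  | zero => intro y hy; exact (hT hy).2 v hv
  | succ i ih =>
    have h1 : gam T (i + 1) ≤ S.stSec v (gam J' (i + 1)) := by
      show ⁅gam T i, T⁆ ≤ _
      rw [Subgroup.commutator_le]
      intro a ha b hb
      have ha' := hle i a ha
      have hb' := (hT hb).1
      rw [mem_stSec]
      refine ⟨commutator_mem_LSt ha' hb' v hv, ?_⟩
      rw [wsec_commutator ha' hb' hv]
      exact comm_mem_gam (ih a ha) ((hT hb).2 v hv)
    intro y hy
    exact (mem_stSec.1 (h1 hy)).2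

theorem secIn_normal (n : ℕ) {M : Subgroup G} (hM : M.Normal) :
    (S.secIn n M).Normal := by
  constructor
  rintro a ⟨ha, ha'⟩ g
  refine ⟨(S.LSt_normal n).conj_mem a ha g, fun w hw => ?_⟩
  obtain ⟨u, rfl⟩ : ∃ u, S.wact g u = w := ⟨S.wact g⁻¹ w, by simp⟩
  have hu : u.length = n := by simpa using hw
  rw [S.wsec_conj, ha u hu]
  exact hM.conj_mem _ (ha' u hu) _

theorem secIn_mono {n : ℕ} {M M' : Subgroup G} (h : M ≤ M') : S.secIn n M ≤ S.secIn n M' :=
  fun _ hg => ⟨hg.1, fun w hw => h (hg.2 w hw)⟩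

/-- an element of the level stabiliser is in `U` if its coordinates are. -/
theorem mem_of_isAt_sections [Fintype X] [Nonempty X] (hF : S.Faithful) {n : ℕ} {U : Subgroup G}
    {g : G} (hg : g ∈ S.LSt n)
    (h : ∀ v : List X, v.length = n → ∃ k ∈ U, S.IsAt k v (S.wsec g v)) : g ∈ U := by
  classical
  have key : ∀ T : Finset (List X), ∀ g ∈ S.LSt n,
      (∀ v : List X, v.length = n → ∃ k ∈ U, S.IsAt k v (S.wsec g v)) →
      (∀ w : List X, w.length = n → w ∉ T → S.wsec g w = 1) → g ∈ U := by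
    intro T
    induction T using Finset.induction_on with
    | empty =>
      intro g hg _ h
      have : g = 1 := hF.eq_one hg fun w hw => h w hw (by simp)
      rw [this]
      exact Subgroup.one_mem _
    | insert v T hv ih =>
      intro g hg hU h
      by_cases hvn : v.length = n
      · obtain ⟨k, hkU, hk⟩ := hU v hvn
        have hki := hk.inv
        have hkL : k⁻¹ ∈ S.LSt n := by rw [← hvn]; exact hki.1
        have hsec : ∀ w : List X, w.length = n → S.wsec (g * k⁻¹) w =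
            if w = v then 1 else S.wsec g w := by
          intro w hw
          rw [S.wsec_mul_of_LSt hkL hw]
          split_ifs with hwv
          · subst hwv; rw [hki.2.1, mul_inv_cancel]
          · rw [hki.2.2 w (hw.trans hvn.symm) hwv, mul_one]
        have h1 : g * k⁻¹ ∈ U := by
          refine ih (g * k⁻¹) ((S.LSt n).mul_mem hg hkL) (fun w hw => ?_) fun w hw hwT => ?_
          · rw [hsec w hw]
            split_ifs with hwv
            · refine ⟨1, U.one_mem, ?_⟩
              exact IsAt.one S w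
            · exact hU w hw
          · rw [hsec w hw]
            split_ifs with hwv
            · rfl
            · exact h w hw (by simp [hwv, hwT])
        have := U.mul_mem h1 hkU
        simpa using this
      · refine ih g hg hU fun w hw hwT => h w hw ?_
        intro hmem
        rcases Finset.mem_insert.1 hmem with rfl | h'
        · exact hvn hw
        · exact hwT h'
  exact key (lev X n) g hg h fun w hw hn => absurd (mem_lev.2 hw) hn

theorem sum_lev_add [Fintype X] (m n : ℕ) (f : List X → ℚ) :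
    ∑ v ∈ lev X (m + n), f v = ∑ w ∈ lev X m, ∑ u ∈ lev X n, f (w ++ u) := by
  rw [← Finset.sum_product']
  refine Finset.sum_nbij' (fun v => (v.take m, v.drop m)) (fun p => p.1 ++ p.2) ?_ ?_ ?_ ?_ ?_
  · intro v hv
    rw [mem_lev] at hv
    simp only [Finset.mem_product, mem_lev, List.length_take, List.length_drop, hv]
    omega
  · rintro ⟨w, u⟩ h
    simp only [Finset.mem_product, mem_lev] at h ⊢
    rw [List.length_append, h.1, h.2]
  · intro v _
    exact List.take_append_drop m v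
  · rintro ⟨w, u⟩ h
    simp only [Finset.mem_product, mem_lev] at h
    simp [← h.1]
  · intro v _
    simp

/-- `l` is additive on `gam J (k+1)` and vanishes on `gam J (k+1) ∩ N_m`. -/
structure Adm (S : SelfSim G X) (m k : ℕ) (J : Subgroup G) (l : G → ℚ) : Prop where
  add : ∀ a ∈ gam J (k + 1), ∀ b ∈ gam J (k + 1), l (a * b) = l a + l b
  zero : ∀ a ∈ gam J (k + 1), a ∈ S.N m → l a = 0

/-- Decomposition along the level `n`. -/
theorem Adm.decomp [Fintype X] [Nonempty X] (hF : S.Faithful) (hS : S.SelfRep) {m n k : ℕ}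
    {J J' : Subgroup G} (hJ' : gam J' (k + 2) ≤ S.N (m + n)) {l : G → ℚ} (hl : S.Adm m k J l) :
    ∃ L : List X → G → ℚ, (∀ v, v.length = n → S.Adm (m + n) k J' (L v)) ∧
      ∀ y ∈ gam (J ⊓ S.secIn n J') (k + 1), l y = ∑ v ∈ lev X n, L v (S.wsec y v) := by
  classical
  obtain ⟨Q, _, q, hq1, hq2⟩ := exists_comm_quot (gam J' (k + 1)) (S.N (m + n))
    (N_normal hS (m + n)) ((Subgroup.commutator_le.2 fun a ha b hb =>
      hJ' (comm_gam_gam ha hb)))
  set Y := gam (J ⊓ S.secIn n J') (k + 1) with hY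
  have hYJ : Y ≤ gam J (k + 1) := gam_mono' inf_le_left _
  have hYL : ∀ y ∈ Y, y ∈ S.LSt n := fun y hy => (gam_le _ _ hy).2.1
  have hYs : ∀ y ∈ Y, ∀ v : List X, v.length = n → S.wsec y v ∈ gam J' (k + 1) :=
    fun y hy v hv => wsec_mem_gam inf_le_right hv (k + 1) y hy
  let _ : Fintype {v : List X // v.length = n} := Fintype.ofFinite _
  obtain ⟨μ, hμ⟩ := exists_ext (A := {v : List X // v.length = n} → Q) Y
    (fun y v => q (S.wsec y v.1)) l
    (fun a ha b hb => by
      funext v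
      show q (S.wsec (a * b) v.1) = q (S.wsec a v.1) + q (S.wsec b v.1)
      rw [S.wsec_mul_of_LSt (hYL b hb) v.2, hq1 _ (hYs a ha v.1 v.2) _ (hYs b hb v.1 v.2)])
    (fun a ha b hb => hl.add a (hYJ ha) b (hYJ hb))
    (fun a ha h0 => by
      refine hl.zero a (hYJ ha) (mem_of_isAt_sections hF (hYL a ha) fun v hv => ?_)
      have h1 : q (S.wsec a v) = 0 := congrFun h0 ⟨v, hv⟩
      rw [hq2 _ (hYs a ha v hv)] at h1
      have h1' : S.wsec a v ∈ S.N (n + m) := by rw [add_comm]; exact h1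
      obtain ⟨h2, h3⟩ := (mem_N_add hF n m _).1 h1'
      obtain ⟨b, hb⟩ := h2 v hv
      exact ⟨b, h3 v b hv hb, hb⟩)
  refine ⟨fun v a => if hv : v.length = n then μ (Pi.single ⟨v, hv⟩ (q a)) else 0, ?_, ?_⟩
  · intro v hv
    refine ⟨fun a ha b hb => ?_, fun a ha haN => ?_⟩
    · simp only [dif_pos hv]
      rw [hq1 a ha b hb, Pi.single_add, map_add]
    · simp only [dif_pos hv]
      rw [(hq2 a ha).2 haN, Pi.single_zero, map_zero]
  · intro y hy
    rw [← hμ y hy, Finset.sum_subtype (lev X n) (p := fun v => v.length = n) (fun v => mem_lev)]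
    rw [← Finset.univ_sum_single (fun v : {v : List X // v.length = n} => q (S.wsec y v.1)),
      map_sum]
    refine Finset.sum_congr rfl fun v _ => ?_
    simp only [dif_pos v.2]

/-- the first variable in `N_l` gives zero -/
theorem Adm.lc_vanish {l₀ : ℕ}
    (hC : ∀ m : ℕ, ∀ φ : G → ℚ, IsVHom φ → (∀ h ∈ S.N m, φ h = 0) → ∀ h ∈ S.N l₀, φ h = 0)
    (hS : S.SelfRep) {m k : ℕ} {J : Subgroup G} (hJf : J.FiniteIndex)
    (hJc : gam J (k + 2) ≤ S.N m) {l : G → ℚ} (hl : S.Adm m k J l) {h : G}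
    (hh : h ∈ S.N l₀) (hhJ : h ∈ J) (as : List G) (has : ∀ a ∈ as, a ∈ J)
    (hlen : as.length = k + 1) : l (lc h as) = 0 := by
  have hmem : ∀ h ∈ J, lc h as ∈ gam J (k + 1) := by
    intro h hh
    have := lc_mem_gam (r := 0) as hh has
    rwa [zero_add, hlen] at this
  have hadd : ∀ a ∈ J, ∀ b ∈ J, l (lc (a * b) as) = l (lc a as) + l (lc b as) := by
    intro a ha b hb
    have h1 := lc_mul (N_normal hS m) (c := k + 1) hJc as (r := 0) ha hb has (by omega)
    have h2 : (lc a as * lc b as)⁻¹ * lc (a * b) as ∈ gam J (k + 1) :=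
      Subgroup.mul_mem _ (Subgroup.inv_mem _ (Subgroup.mul_mem _ (hmem a ha) (hmem b hb)))
        (hmem _ (J.mul_mem ha hb))
    have h3 := hl.add _ (Subgroup.mul_mem _ (hmem a ha) (hmem b hb)) _ h2
    rw [mul_inv_cancel_left, hl.zero _ h2 h1, add_zero, hl.add _ (hmem a ha) _ (hmem b hb)] at h3
    exact h3
  obtain ⟨ψ, hψ, hψe⟩ := (stmt_V G).2.2.2.2.2.2.1 J hJf (fun h => l (lc h as)) hadd
  have h0 : ∀ g ∈ S.N m, ψ g = 0 := by
    intro g hg
    obtain ⟨p, hp, hpJ⟩ := exists_pow_mem_fi J hJf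
    have h1 := hψ.1 g p
    rw [hψe _ (hpJ g)] at h1
    have h2 : g ^ p ∈ S.N m := Subgroup.pow_mem _ hg p
    have h3 := hl.zero _ (hmem _ (hpJ g)) (lc_mem_normal (N_normal hS m) as h2)
    simp only [h3] at h1
    have hp' : (p : ℚ) ≠ 0 := by exact_mod_cast hp.ne'
    rcases mul_eq_zero.1 h1.symm with h4 | h4
    · exact absurd h4 hp'
    · exact h4
  have h1 := hC m ψ hψ h0 h hh
  rwa [hψe h hhJ] at h1

/-- finite index of the sections of `N ∩ T` if the sections of `N` are everything -/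
theorem secSub_inf_finiteIndex {N T : Subgroup G} (hT : T.FiniteIndex) {w : List X}
    (hN : S.secSub N w = ⊤) : (S.secSub (N ⊓ T) w).FiniteIndex := by
  let f : (S.St w ⊓ N : Subgroup G) →* G := (S.secHom w).comp (Subgroup.inclusion inf_le_left)
  have hf : Function.Surjective f := by
    intro g
    have hg : g ∈ S.secSub N w := by rw [hN]; trivial
    rw [mem_secSub] at hg
    obtain ⟨h, hh, h1, h2⟩ := hg
    exact ⟨⟨h, h1, hh⟩, h2⟩
  have h1 : (T.subgroupOf (S.St w ⊓ N)).FiniteIndex := Subgroup.instFiniteIndex_subgroupOf _ _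
  have h2 := Subgroup.index_map_dvd (H := T.subgroupOf (S.St w ⊓ N)) hf
  have h3 : ((T.subgroupOf (S.St w ⊓ N)).map f).FiniteIndex :=
    ⟨fun h0 => h1.1 (Nat.eq_zero_of_zero_dvd (h0 ▸ h2))⟩
  refine @Subgroup.finiteIndex_of_le _ _ _ _ h3 ?_
  rintro _ ⟨⟨a, ha1, ha2⟩, ha, rfl⟩
  rw [mem_secSub]
  exact ⟨a, ⟨ha2, ha⟩, ha1, rfl⟩

end SelfSim
end PCF
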