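import Pool.Agent.Work.MP_80ff4e_al.Interface2
import Pool.Agent.Work.MP_80ff4e_al_helper52.C0a

/-!
# MP_80ff4e_al, block C7, part a: the chain `N_k` and the subgroups `N_{k+1} @ x`
-/

set_option autoImplicit false

namespace PCF
namespace SelfSim

variable {G X : Type} [Group G] {S : SelfSim G X}

theorem IsAt.mem_N_left [Nonempty X] (hF : S.Faithful) {a h : G} {v : List X} {n : ℕ}
    (H : S.IsAt a v h) (hh : h ∈ S.N (v.length + n)) : a ∈ S.N n :=
  ((mem_N_add hF v.length n h).1 hh).2 v a rfl H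

theorem IsAt.mem_N_right (hS : S.SelfRep) (hT : S.LevTrans) [Nonempty X] {a h : G} {v : List X}
    {n : ℕ} (H : S.IsAt a v h) (ha : a ∈ S.N n) : h ∈ S.N (v.length + n) := by
  obtain ⟨u, hu⟩ := exists_word (X := X) n
  obtain ⟨b, hb⟩ := ha u hu
  have := mem_N_of_isAt hS hT (hb.comp H)
  rwa [List.length_append, hu, add_comm] at this

/-- The subgroup `N_{k+1} @ x`. -/
def atSub (S : SelfSim G X) (x : X) (k : ℕ) : Subgroup G where
  carrier := {a | ∃ h ∈ S.N (k + 1), S.IsAt a [x] h}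
  one_mem' := ⟨1, Subgroup.one_mem _, IsAt.one S _⟩
  mul_mem' := by
    rintro a b ⟨h, hh, H⟩ ⟨h', hh', H'⟩
    exact ⟨h * h', Subgroup.mul_mem _ hh hh', H.mul H'⟩
  inv_mem' := by
    rintro a ⟨h, hh, H⟩
    exact ⟨h⁻¹, Subgroup.inv_mem _ hh, H.inv⟩

theorem mem_atSub {x : X} {k : ℕ} {a : G} :
    a ∈ S.atSub x k ↔ ∃ h ∈ S.N (k + 1), S.IsAt a [x] h := Iff.rfl

theorem atSub_le_N [Nonempty X] (hF : S.Faithful) (x : X) (k : ℕ) : S.atSub x k ≤ S.N k := by
  rintro a ⟨h, hh, H⟩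
  refine H.mem_N_left hF ?_
  rw [add_comm] at hh
  exact hh

/-- The subgroup `(N_{k+1} @ x) N_{k+1}`. -/
def bSub (S : SelfSim G X) (x : X) (k : ℕ) : Subgroup G := S.atSub x k ⊔ S.N (k + 1)

theorem mem_bSub (hS : S.SelfRep) {x : X} {k : ℕ} {a : G} :
    a ∈ S.bSub x k ↔ ∃ c h n, h ∈ S.N (k + 1) ∧ S.IsAt c [x] h ∧ n ∈ S.N (k + 1) ∧ a = c * n := by
  have := N_normal hS (k + 1)
  unfold bSub
  rw [Subgroup.mem_sup_of_normal_right]
  constructor
  · rintro ⟨c, ⟨h, hh, H⟩, n, hn, rfl⟩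
    exact ⟨c, h, n, hh, H, hn, rfl⟩
  · rintro ⟨c, h, n, hh, H, hn, rfl⟩
    exact ⟨c, ⟨h, hh, H⟩, n, hn, rfl⟩

theorem bSub_le_N [Nonempty X] (hF : S.Faithful) (x : X) (k : ℕ) : S.bSub x k ≤ S.N k :=
  sup_le (atSub_le_N hF x k) (N_succ_le hF k)

theorem conj_mem_bSub (hS : S.SelfRep) {x : X} {k : ℕ} {a : G} (ha : a ∈ S.bSub x k) (g : G) :
    g * a * g⁻¹ ∈ S.bSub (S.act g x) k := by
  rw [mem_bSub hS] at ha ⊢
  obtain ⟨c, h, n, hh, H, hn, rfl⟩ := ha
  have h1 := H.conj g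
  simp only [wact_cons, wact_nil, wsec_cons, wsec_nil] at h1
  refine ⟨_, _, g * n * g⁻¹, (N_normal hS (k + 1)).conj_mem h hh (S.sec g x), h1,
    (N_normal hS (k + 1)).conj_mem n hn g, by group⟩

theorem isAt_singleton {c h : G} {x : X} (H : S.IsAt c [x] h) : S.act c x = x ∧ S.sec c x = h := by
  have h1 := H.1 [x] rfl
  have h2 := H.2.1
  simpa using And.intro h1 h2

/-- the finite index step from a chain condition -/
theorem bSub_relIndex [Nonempty X] (hF : S.Faithful) (hS : S.SelfRep) (hT : S.LevTrans) (x : X)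
    (k : ℕ) (h : (S.Rist (List.replicate (k + 1) x) ⊔ S.N 1).relIndex
      (S.Rist (List.replicate k x) ⊔ S.N 1) ≠ 0) : (S.bSub x k).relIndex (S.N k) ≠ 0 := by
  classical
  set v := List.replicate k x with hv
  have hvl : v.length = k := by simp [hv]
  have hN1 := N_normal hS 1
  -- the homomorphism `h ↦ h @ v`
  choose f hf using fun h : S.N k => h.2 v hvl
  let ι : S.N k →* G :=
    { toFun := f
      map_one' := (hf 1).unique hF (IsAt.one S v)
      map_mul' := fun a b => (hf (a * b)).unique hF ((hf a).mul (hf b)) }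
  have hι : ∀ h : S.N k, S.IsAt (ι h) v h := hf
  have h1 : (S.Rist (List.replicate (k + 1) x) ⊔ S.N 1).relIndex ι.range ≠ 0 := by
    refine mt (Subgroup.relIndex_eq_zero_of_le_right ?_) h
    rintro _ ⟨a, rfl⟩
    exact Subgroup.mem_sup_left ((mem_Rist_iff hF).2 ⟨_, hι a⟩)
  rw [← Subgroup.index_comap] at h1
  refine mt (fun h0 => ?_) h1
  have hle : (S.Rist (List.replicate (k + 1) x) ⊔ S.N 1).comap ι ≤
      (S.bSub x k).subgroupOf (S.N k) := by
    intro a ha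
    rw [Subgroup.mem_comap, Subgroup.mem_sup_of_normal_right] at ha
    obtain ⟨b, hb, n, hn, hbn⟩ := ha
    rw [mem_Rist_iff hF] at hb
    obtain ⟨c, hc⟩ := hb
    rw [List.replicate_succ', ← hv] at hc
    obtain ⟨d, hd1, hd2⟩ := hc.split hF
    have hcN : c ∈ S.N (k + 1) := by
      have := mem_N_of_isAt hS hT (hd1.comp hd2)
      simpa [hvl] using this
    have hd : d ∈ S.atSub x k := ⟨c, hcN, hd2⟩
    have hn' : S.IsAt n v (d⁻¹ * a) := by
      have := hd1.inv.mul (hι a)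
      rwa [← hbn, inv_mul_cancel_left] at this
    have hda : d⁻¹ * (a : G) ∈ S.N (k + 1) := by
      have := hn'.mem_N_right hS hT hn
      rwa [hvl] at this
    rw [Subgroup.mem_subgroupOf]
    have : (a : G) = d * (d⁻¹ * a) := by group
    rw [this]
    exact Subgroup.mul_mem _ (Subgroup.mem_sup_left hd) (Subgroup.mem_sup_right hda)
  have h2 := Subgroup.index_dvd_of_le hle
  rw [show ((S.bSub x k).subgroupOf (S.N k)).index = 0 from h0] at h2
  exact Nat.eq_zero_of_zero_dvd h2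

/-- `(N_{k+1}@x) N_{k+1}` has finite index in `N_k` for all large `k`. -/
theorem exists_bSub_relIndex [Fintype X] [Nonempty X] (hD2 : Stmt_D2) (hfg : Group.FG G)
    (hF : S.Faithful) (hS : S.SelfRep) (hT : S.LevTrans)
    (hnil : ∃ J : Subgroup G, J.Normal ∧ J.FiniteIndex ∧ ∃ r, gam J r ≤ S.N 1) :
    ∃ m₁, ∀ k ≥ m₁, ∀ x : X, (S.bSub x k).relIndex (S.N k) ≠ 0 := by
  classical
  obtain ⟨J, hJn, hJf, r, hr⟩ := hnil
  have h1 : ∀ x : X, ∃ k₀, ∀ k ≥ k₀, (S.bSub x k).relIndex (S.N k) ≠ 0 := by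
    intro x
    have hanti : Antitone fun k => S.Rist (List.replicate k x) ⊔ S.N 1 := by
      refine antitone_nat_of_succ_le fun k => sup_le_sup_right ?_ _
      intro a ha
      rw [mem_Rist_iff hF] at ha ⊢
      obtain ⟨c, hc⟩ := ha
      rw [List.replicate_succ'] at hc
      obtain ⟨d, hd, -⟩ := hc.split hF
      exact ⟨d, hd⟩
    obtain ⟨k₀, hk₀⟩ := hD2 G hfg J (S.N 1) hJf hJn (N_normal hS 1) r hr _ hanti
      fun k => le_sup_right
    exact ⟨k₀, fun k hk => bSub_relIndex hF hS hT x k (hk₀ k hk)⟩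
  choose k₀ hk₀ using h1
  refine ⟨Finset.univ.sup k₀, fun k hk x => hk₀ x k ?_⟩
  exact (Finset.le_sup (Finset.mem_univ x)).trans hk

/-- the virtually abelian quotient -/
theorem exists_abelian [Fintype X] [Nonempty X] (hX : 2 ≤ Fintype.card X) (hF : S.Faithful)
    (hS : S.SelfRep) {k : ℕ} (hk : ∀ x : X, (S.bSub x k).relIndex (S.N k) ≠ 0) :
    ∃ A : Subgroup G, A.Normal ∧ A ≤ S.N k ∧ A.relIndex (S.N k) ≠ 0 ∧
      ⁅A, A⁆ ≤ S.N (k + 1) := by
  obtain ⟨x, y, hxy⟩ := Fintype.exists_ne_of_one_lt_card (α := X) (by omega)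
    (Classical.arbitrary X) |>.imp fun y hy => (⟨Classical.arbitrary X, hy⟩ : ∃ z, y ≠ z)
  refine ⟨⨅ x, S.bSub x k, ⟨fun a ha g => ?_⟩, (iInf_le _ x).trans (bSub_le_N hF x k),
    Subgroup.relIndex_iInf_ne_zero hk, ?_⟩
  · rw [Subgroup.mem_iInf] at ha ⊢
    intro z
    have := conj_mem_bSub hS (ha (S.act g⁻¹ z)) g
    simpa using this
  · rw [Subgroup.commutator_le]
    intro a ha b hb
    rw [Subgroup.mem_iInf] at ha hb
    have hN := N_normal hS (k + 1)
    obtain ⟨c, h, n, -, H, hn, rfl⟩ := (mem_bSub hS).1 (ha x)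
    obtain ⟨c', h', n', -, H', hn', rfl⟩ := (mem_bSub hS).1 (hb y)
    rw [← QuotientGroup.eq_one_iff, commutatorElement_def]
    have e1 : ((n : G) : G ⧸ S.N (k + 1)) = 1 := (QuotientGroup.eq_one_iff n).2 hn
    have e2 : ((n' : G) : G ⧸ S.N (k + 1)) = 1 := (QuotientGroup.eq_one_iff n').2 hn'
    have e3 : ((c * c' : G) : G ⧸ S.N (k + 1)) = ((c' * c : G) : G ⧸ S.N (k + 1)) := by
      rw [H.commute hF (by simp) (by simpa using hxy) H']
    simp only [QuotientGroup.mk_mul, QuotientGroup.mk_inv, e1, e2, mul_one] at e3 ⊢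
    rw [e3]
    group

end SelfSim
end PCF
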