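import Pool.Agent.Work.MP_80ff4e_al.Interface4

/-!
# MP_80ff4e_al, blocks HM and JW
-/

set_option autoImplicit false

open Polynomial

namespace PCF

namespace H52

theorem itp_succ_right (f : ℂ[X]) (n : ℕ) : itp f (n + 1) = (itp f n).comp f := by
  unfold itp
  induction n with
  | zero => simp
  | succ n ih =>
    calc (fun q => f.comp q)^[n + 1 + 1] X = f.comp ((fun q => f.comp q)^[n + 1] X) :=
          Function.iterate_succ_apply' _ _ _
      _ = (f.comp ((fun q => f.comp q)^[n] X)).comp f := by rw [ih, comp_assoc]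
      _ = ((fun q => f.comp q)^[n + 1] X).comp f := by rw [Function.iterate_succ_apply']

theorem itp_natDegree (f : ℂ[X]) (n : ℕ) : (itp f n).natDegree = f.natDegree ^ n := by
  induction n with
  | zero => simp [itp]
  | succ n ih => rw [itp_succ_right, natDegree_comp, ih, pow_succ]

theorem cancel {p q r : ℂ[X]} (hr : 1 ≤ r.natDegree) (h : p.comp r = q.comp r) : p = q := by
  have h1 : (p - q).comp r = 0 := by rw [sub_comp, h, sub_self]
  rw [comp_eq_zero_iff] at h1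
  rcases h1 with h1 | ⟨-, h2⟩
  · exact sub_eq_zero.1 h1
  · rw [h2, natDegree_C] at hr
    omega

theorem gcd_arith {p e d : ℕ} (hp : p.Prime) (he : 0 < e) (hd : 0 < d)
    (h : padicValNat p e < padicValNat p d) :
    Nat.gcd (p * e) d = p * Nat.gcd e d ∧ ¬ p ∣ e / Nat.gcd e d ∧
      Nat.Coprime (e / Nat.gcd e d) (d / (p * Nat.gcd e d)) := by
  have := Fact.mk hp
  set g := Nat.gcd e d with hg
  have hg0 : 0 < g := Nat.gcd_pos_of_pos_left _ he
  obtain ⟨e₀, he₀⟩ : g ∣ e := Nat.gcd_dvd_left _ _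
  obtain ⟨d₀, hd₀⟩ : g ∣ d := Nat.gcd_dvd_right _ _
  have he0 : e / g = e₀ := by rw [he₀, Nat.mul_div_cancel_left _ hg0]
  have hd0 : d / g = d₀ := by rw [hd₀, Nat.mul_div_cancel_left _ hg0]
  have hcop : Nat.Coprime e₀ d₀ := by
    rw [← he0, ← hd0]
    exact Nat.coprime_div_gcd_div_gcd hg0
  have he₀0 : e₀ ≠ 0 := by rintro rfl; omega
  have hd₀0 : d₀ ≠ 0 := by rintro rfl; omega
  have hv : padicValNat p e₀ < padicValNat p d₀ := by
    rw [he₀, hd₀, padicValNat.mul hg0.ne' he₀0, padicValNat.mul hg0.ne' hd₀0] at h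
    omega
  have hpd : p ∣ d₀ := dvd_of_one_le_padicValNat (by omega)
  have hpe : ¬ p ∣ e₀ := fun hpe => hp.one_lt.ne' (Nat.eq_one_of_dvd_coprimes hcop hpe hpd)
  refine ⟨?_, by rwa [he0], ?_⟩
  · have h1 : Nat.gcd (p * e) d = g * Nat.gcd (p * e₀) d₀ := by
      rw [he₀, hd₀, ← Nat.gcd_mul_left]
      congr 1
      ring
    rw [h1, Nat.Coprime.gcd_mul_right_cancel p hcop, Nat.gcd_eq_left hpd, mul_comm]
  · obtain ⟨d₁, hd₁⟩ := hpd
    have h2 : d / (p * g) = d₁ := by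
      rw [hd₀, hd₁, show g * (p * d₁) = p * g * d₁ by ring,
        Nat.mul_div_cancel_left _ (Nat.mul_pos hp.pos hg0)]
    rw [he0, h2]
    rw [hd₁] at hcop
    exact Nat.Coprime.coprime_mul_left_right hcop

end H52

open H52 in
theorem stmt_HM (hRL : Stmt_RL) (hMV : Stmt_MV) : Stmt_HM := by
  intro f P hA p m h y hp hB hv
  obtain ⟨⟨a, ha⟩, -, -⟩ := hB
  have hd2 := hA.deg
  have hd : 0 < f.natDegree := by omega
  have hdeg : f.natDegree ^ m = a.natDegree * (p * h.natDegree) := by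
    rw [← itp_natDegree, ha, natDegree_comp, natDegree_pow]
  have hpos : 0 < f.natDegree ^ m := pow_pos hd m
  have he : 0 < h.natDegree := by
    rcases Nat.eq_zero_or_pos h.natDegree with h0 | h0
    · rw [h0, mul_zero, mul_zero] at hdeg; omega
    · exact h0
  have ha0 : 0 < a.natDegree := by
    rcases Nat.eq_zero_or_pos a.natDegree with h0 | h0
    · rw [h0, zero_mul] at hdeg; omega
    · exact h0
  obtain ⟨n, rfl⟩ : ∃ n, m = n + 1 := by
    rcases m with _ | n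
    · rw [pow_zero] at hdeg
      have h1 : p ∣ 1 := by
        rw [hdeg]
        exact Dvd.dvd.mul_left (dvd_mul_right p _) _
      exact absurd (Nat.dvd_one.1 h1) hp.one_lt.ne'
    · exact ⟨n, rfl⟩
  have hf : itp f (n + 1) = (itp f n).comp f := itp_succ_right f n
  have hh : itp f (n + 1) = (a.comp (X ^ p)).comp h := by
    rw [ha, comp_assoc, X_pow_comp]
  obtain ⟨⟨γ', X', U, hX', hU, hγ'⟩, -, -⟩ := hRL f P hA (n + 1) _ h _ f hh hf
  obtain ⟨⟨κ, Y', α', hY', hα', hκ⟩, -, -⟩ := hRL f P hA (n + 1) _ (h ^ p) _ f ha hf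
  rw [natDegree_pow] at hκ
  obtain ⟨g1, g2, g3⟩ := gcd_arith hp he hd hv
  set g := Nat.gcd h.natDegree f.natDegree with hg
  have hg0 : 0 < g := Nat.gcd_pos_of_pos_left _ he
  rw [g1] at hκ
  -- `κ = B ∘ γ'`
  have k1 : itp f (n + 1) = ((itp f n).comp U).comp γ' := by rw [hf, comp_assoc, ← hU]
  have k2 : itp f (n + 1) = ((itp f n).comp α').comp κ := by rw [hf, comp_assoc, ← hα']
  obtain ⟨B, hB⟩ := (hRL f P hA (n + 1) _ γ' _ κ k1 k2).2.2
    (by rw [hγ', hκ]; exact Dvd.intro_left _ rfl)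
  have hBdeg : B.natDegree = p := by
    have h1 : κ.natDegree = B.natDegree * γ'.natDegree := by
      conv_lhs => rw [hB]
      exact natDegree_comp
    rw [hκ, hγ'] at h1
    exact (Nat.eq_of_mul_eq_mul_right hg0 h1).symm
  have hγ'1 : 1 ≤ γ'.natDegree := by rw [hγ']; exact hg0
  have hXY : X' ^ p = Y'.comp B := by
    apply cancel hγ'1
    rw [pow_comp, ← hX', comp_assoc, ← hB, ← hY']
  have hX'deg : X'.natDegree = h.natDegree / g := by
    have h1 : h.natDegree = X'.natDegree * γ'.natDegree := by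
      conv_lhs => rw [hX']
      exact natDegree_comp
    rw [hγ'] at h1
    rw [h1, Nat.mul_div_cancel _ hg0]
  have hα'deg : α'.natDegree = f.natDegree / (p * g) := by
    have h1 : f.natDegree = α'.natDegree * κ.natDegree := by
      conv_lhs => rw [hα']
      exact natDegree_comp
    rw [hκ] at h1
    conv_rhs => rw [h1]
    rw [Nat.mul_div_cancel _ (Nat.mul_pos hp.pos hg0)]
  obtain ⟨α₁, β₁, c, hα₁, hBeq, hXc⟩ := hMV.1 p X' Y' B hp hBdeg (by rwa [hX'deg]) hXY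
  have e1 : (C α₁ * X + C β₁ : ℂ[X]).natDegree = 1 := natDegree_linear hα₁
  have e2 : (X + C c : ℂ[X]).natDegree = 1 := natDegree_X_add_C c
  have e3 : B = (C α₁ * X + C β₁ : ℂ[X]).comp ((X - C c) ^ p) := by
    rw [hBeq]; simp
  refine ⟨α'.comp (C α₁ * X + C β₁), γ' - C c, X'.comp (X + C c), Y'.comp (C α₁ * X + C β₁),
    ⟨?_, ?_, ?_, ?_, ?_⟩, ?_⟩
  · have h1 : κ = (C α₁ * X + C β₁ : ℂ[X]).comp ((γ' - C c) ^ p) := by
      rw [hB, e3, comp_assoc]
      congr 1
      simp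
    rw [comp_assoc, ← h1, ← hα']
  · rw [eval_comp]; simpa using hXc
  · rw [← pow_comp, hXY, e3, comp_assoc, comp_assoc, comp_assoc]
    congr 2
    simp
  · rw [natDegree_comp, natDegree_comp, e1, e2, mul_one, mul_one, hX'deg, hα'deg]
    exact g3
  · rw [natDegree_comp, e2, mul_one, hX'deg]
    exact g2
  · rw [comp_assoc, hX']
    congr 1
    simp

open H52 in
theorem stmt_JW (hRL : Stmt_RL) : Stmt_JW := by
  intro f P hA p m a α γ X₁ Y hp hH hfm b₁ Y₁ X₁' D₁ Z₁ A₁ C₁ c₁ b₂ Y₂ X₂' D₂ Z₂ A₂ C₂ c₂ s₁ s₂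
  have hd2 := hA.deg
  have hd : 0 < f.natDegree := by omega
  -- `f ^ m = a ∘ Y ∘ u`
  have hu : itp f m = (a.comp Y).comp (γ ^ p) := by
    rw [hfm, ← pow_comp, hH.XY, comp_assoc, comp_assoc, X_pow_comp]
  have hdeg : f.natDegree ^ m = a.natDegree * Y.natDegree * (γ ^ p).natDegree := by
    rw [← itp_natDegree, hu, natDegree_comp, natDegree_comp]
  have hpos : 0 < f.natDegree ^ m := pow_pos hd m
  have hu1 : 1 ≤ (γ ^ p).natDegree := by
    rcases Nat.eq_zero_or_pos (γ ^ p).natDegree with h0 | h0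
    · rw [h0, mul_zero] at hdeg; omega
    · exact h0
  have hY1 : 1 ≤ Y.natDegree := by
    rcases Nat.eq_zero_or_pos Y.natDegree with h0 | h0
    · rw [h0, mul_zero, zero_mul] at hdeg; omega
    · exact h0
  have hY₁ : 1 ≤ Y₁.natDegree := by
    rw [s₁.deg]; exact Nat.gcd_pos_of_pos_left _ hY1
  have f1 : itp f m = (a.comp D₁).comp (Y₁.comp (γ ^ p)) := by
    rw [hu, s₁.Y_eq]
    simp only [comp_assoc]
  have f2 : itp f m = (a.comp D₂).comp (Y₂.comp (γ ^ p)) := by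
    rw [hu, s₂.Y_eq]
    simp only [comp_assoc]
  obtain ⟨W, hW⟩ := (hRL f P hA m _ _ _ _ f1 f2).2.2 (by
    rw [natDegree_comp, natDegree_comp, s₁.deg, s₂.deg]
    refine Nat.mul_dvd_mul (Nat.gcd_dvd_gcd_of_dvd_right _ ?_) dvd_rfl
    exact pow_dvd_pow _ (by norm_num))
  have hW' : Y₂ = W.comp Y₁ := by
    apply cancel hu1
    rw [hW, comp_assoc]
  refine ⟨W, hW', ?_, ?_, ?_⟩
  · apply cancel hY₁
    rw [← s₁.Y_eq, comp_assoc, ← hW', ← s₂.Y_eq]
  · have h1 := s₂.Yj0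
    rw [hW', eval_comp, s₁.Yj0] at h1
    exact h1
  · apply cancel hY₁
    have g1 := s₁.g_eq
    have g2 := s₂.g_eq
    rw [comp_assoc ((γ ^ p).comp α) b₁ Y₁, comp_assoc b₂ W Y₁, ← g1, ← hW', ← g2]
    simp [itp]

end PCF
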